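import Mathlib

/-!
# Systems of forms over an algebraically closed field

More variables than forms give a nontrivial common zero (homogeneous Nullstellensatz).
-/

set_option autoImplicit false

open MvPolynomial

namespace Pool.Agent.Helper47.Ci

variable {K : Type*} [Field K]

/-- translation by a point -/
noncomputable def translate {ι : Type*} (a : ι → K) : MvPolynomial ι K ≃ₐ[K] MvPolynomial ι K :=
  AlgEquiv.ofAlgHom (aeval fun i => X i + C (a i)) (aeval fun i => X i - C (a i))
    (by ext i; simp) (by ext i; simp)

theorem aeval_translate {ι : Type*} (a x : ι → K) (P : MvPolynomial ι K) :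
    aeval x (translate a P) = aeval (x + a) P := by
  have : (aeval x).comp (translate a).toAlgHom = aeval (x + a) := by
    ext i
    simp [translate]
  exact DFunLike.congr_fun this P

theorem height_point [IsAlgClosed K] {ι : Type*} [Fintype ι] :
    (vanishingIdeal K {(0 : ι → K)} : Ideal (MvPolynomial ι K)).height = Fintype.card ι := by
  have hdim : ringKrullDim (MvPolynomial ι K) = (Fintype.card ι : ℕ) := by
    rw [MvPolynomial.ringKrullDim_of_isNoetherianRing, ringKrullDim_eq_zero_of_field,
      Nat.card_eq_fintype_card, zero_add]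
  have hfin : FiniteRingKrullDim (MvPolynomial ι K) := by
    rw [finiteRingKrullDim_iff_ne_bot_and_top, hdim]
    constructor
    · exact WithBot.coe_ne_bot
    · intro h
      have h2 : ((Fintype.card ι : ℕ∞) : WithBot ℕ∞) = ((⊤ : ℕ∞) : WithBot ℕ∞) := h
      rw [WithBot.coe_inj] at h2
      exact ENat.natCast_ne_top _ h2
  obtain ⟨p, hp, hph⟩ := Ideal.exists_isMaximal_height (R := MvPolynomial ι K)
  obtain ⟨a, rfl⟩ := (isMaximal_iff_eq_vanishingIdeal_singleton).1 hp
  have hcomap : Ideal.comap (translate (-a)).toRingEquiv (vanishingIdeal K {a}) =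
      (vanishingIdeal K {(0 : ι → K)} : Ideal (MvPolynomial ι K)) := by
    ext P
    rw [Ideal.mem_comap, mem_vanishingIdeal_singleton_iff, mem_vanishingIdeal_singleton_iff]
    have : aeval a ((translate (-a)).toRingEquiv P) = aeval (a + -a) P := aeval_translate _ _ _
    rw [this, add_neg_cancel]
  rw [← hcomap, RingEquiv.height_comap]
  rw [hdim] at hph
  have h2 : (((vanishingIdeal K {a} : Ideal (MvPolynomial ι K)).height : ℕ∞) : WithBot ℕ∞) =
      ((Fintype.card ι : ℕ∞) : WithBot ℕ∞) := hph
  exact WithBot.coe_inj.1 h2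

theorem algClosed_system [IsAlgClosed K] {J ι : Type*} [Fintype J] [Fintype ι]
    (f : J → MvPolynomial ι K) (d : J → ℕ) (hd : ∀ j, 0 < d j)
    (hf : ∀ j, (f j).IsHomogeneous (d j)) (hlt : Fintype.card J < Fintype.card ι) :
    ∃ x : ι → K, x ≠ 0 ∧ ∀ j, eval x (f j) = 0 := by
  classical
  by_contra hcon
  push Not at hcon
  set I : Ideal (MvPolynomial ι K) := Ideal.span (Set.range f) with hI
  have hzero : zeroLocus K I = {(0 : ι → K)} := by
    rw [hI, zeroLocus_span]
    ext x
    simp only [Set.mem_range, forall_exists_index, forall_apply_eq_imp_iff, Set.mem_ofPred_eq,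
      Set.mem_singleton_iff]
    constructor
    · intro h
      by_contra hx
      obtain ⟨j, hj⟩ := hcon x hx
      exact hj (by rw [← coe_aeval_eq_eval]; exact h j)
    · rintro rfl j
      have h1 : coeff 0 (f j) = 0 := (hf j).coeff_eq_zero (by
        simpa using (hd j).ne)
      rw [aeval_zero, constantCoeff_eq, h1, map_zero]
  have hrad : I.radical = vanishingIdeal K {(0 : ι → K)} := by
    rw [← vanishingIdeal_zeroLocus_eq_radical (K := K) I, hzero]
  have hmin : vanishingIdeal K {(0 : ι → K)} ∈ I.minimalPrimes := by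
    refine ⟨⟨inferInstance, ?_⟩, fun Q hQ _ => ?_⟩
    · rw [← hrad]; exact Ideal.le_radical
    · rw [← hrad]
      have := hQ.1
      exact (Ideal.IsPrime.radical_le_iff this).2 hQ.2
  have h1 := Ideal.height_le_card_of_mem_minimalPrimes_span (Set.finite_range f) hmin
  rw [height_point] at h1
  have h2 : (Set.range f).ncard ≤ Fintype.card J := by
    rw [← Set.image_univ]
    refine (Set.ncard_image_le Set.finite_univ).trans ?_
    rw [Set.ncard_univ, Nat.card_eq_fintype_card]
  have h3 : Fintype.card ι ≤ (Set.range f).ncard := by exact_mod_cast h1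
  omega

end Pool.Agent.Helper47.Ci
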