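import Pool.Graph.R_pool_sql_team_seeded_620a6dc7.H19CI.E

/-!
# Systems of forms, with a real bound for the forms of degrees `a * D ^ s`

The Lang-Nagata argument bounds the number of variables of an anisotropic system of forms of
degree `D` by the growth of the numbers of variables of anisotropic forms of degrees `a * D ^ s`.
-/

set_option autoImplicit false

open MvPolynomial Pool.Agent.H19CI

namespace Pool.Agent.Helper47.Ci

variable {K : Type*} [Field K]

/-- `β` bounds the growth of the number of variables of anisotropic forms of degrees `a * D ^ s`,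
where there are `a` which are degrees of anisotropic forms in arbitrarily many variables. -/
def Growth (K : Type*) [Field K] (D : ℕ) (β : ℝ) : Prop :=
  ∀ u : ℕ, ∃ a : ℕ, 0 < a ∧ HasForm K a (Fin u) ∧
    ∃ C : ℝ, ∀ s m : ℕ, HasForm K (a * D ^ s) (Fin m) → (m : ℝ) ≤ C * β ^ s

theorem nagata_real {V T : Type} [Fintype V] [Fintype T] (g : T → MvPolynomial V K) (D : ℕ)
    (hg : ∀ t, (g t).IsHomogeneous D) (hani : Aniso g) (β : ℝ) (hβ : 1 ≤ β)
    (hG : Growth K D β) : (Fintype.card V : ℝ) ≤ Fintype.card T * β := by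
  classical
  by_contra hlt
  push Not at hlt
  set r := Fintype.card T with hrdef
  set n := Fintype.card V with hndef
  have hnpos : (0 : ℝ) < n := lt_of_le_of_lt (by positivity) hlt
  have hr : 0 < r := by
    rcases Nat.eq_zero_or_pos r with h | h
    · exfalso
      have : IsEmpty T := Fintype.card_eq_zero_iff.1 h
      have hn : 0 < Fintype.card V := by exact_mod_cast hnpos
      obtain ⟨v⟩ := Fintype.card_pos_iff.1 hn
      have h1 := hani (fun _ => 1) (fun t => this.elim t)
      exact one_ne_zero (congrFun h1 v)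
    · exact h
  have hr' : (0 : ℝ) < r := by exact_mod_cast hr
  have hβ0 : (0 : ℝ) < β := by linarith
  -- an intermediate rate
  have hβn : β < n / r := by
    rw [lt_div_iff₀ hr', mul_comm]
    exact hlt
  obtain ⟨γ, hγ1, hγ2⟩ := exists_between hβn
  have hγ : 1 < γ := lt_of_le_of_lt hβ hγ1
  have hγ0 : 0 < γ := by linarith
  obtain ⟨u0, hu0⟩ := exists_nat_gt (1 / ((n : ℝ) / r - γ))
  have hgap : 0 < (n : ℝ) / r - γ := by linarith
  have hu0pos : (0 : ℝ) < u0 := lt_trans (by positivity) hu0
  have hu0' : 1 < u0 * ((n : ℝ) / r - γ) := by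
    rwa [div_lt_iff₀ hgap] at hu0
  obtain ⟨a, ha, haF, C, hC⟩ := hG (r * u0)
  -- the sequence
  have hseq : ∀ s : ℕ, ∃ u : ℕ, HasForm K (a * D ^ s) (Fin (r * u)) ∧
      (u0 : ℝ) * γ ^ s ≤ u := by
    intro s
    induction s with
    | zero => exact ⟨u0, by simpa using haF, by simp⟩
    | succ s ih =>
      obtain ⟨u, hu1, hu2⟩ := ih
      have h1 := HasForm.insert g D hg hani hu1
      rw [← hndef] at h1
      refine ⟨u * n / r, ?_, ?_⟩
      · have h2 := h1.mono (Nat.mul_div_le (u * n) r)
        rwa [mul_assoc, ← pow_succ] at h2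
      · have h3 : ((u * n : ℕ) : ℝ) < r * ((u * n / r : ℕ) : ℝ) + r := by
          have := Nat.lt_mul_div_succ (u * n) hr
          rw [Nat.mul_add, Nat.mul_one] at this
          exact_mod_cast this
        have h4 : (u0 : ℝ) ≤ u := by
          calc (u0 : ℝ) = u0 * 1 := (mul_one _).symm
            _ ≤ u0 * γ ^ s := by
              apply mul_le_mul_of_nonneg_left (one_le_pow₀ hγ.le) hu0pos.le
            _ ≤ u := hu2
        have h5 : (u : ℝ) * (n / r) < ((u * n / r : ℕ) : ℝ) + 1 := by
          have h6 : (u : ℝ) * (n / r) = (u * n : ℕ) / r := by push_cast; ring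
          rw [h6, div_lt_iff₀ hr']
          linarith
        have h6 : γ * u ≤ ((u * n / r : ℕ) : ℝ) := by
          have h7 : 1 < u * ((n : ℝ) / r - γ) :=
            lt_of_lt_of_le hu0' (mul_le_mul_of_nonneg_right h4 hgap.le)
          linarith
        calc (u0 : ℝ) * γ ^ (s + 1) = γ * (u0 * γ ^ s) := by ring
          _ ≤ γ * u := mul_le_mul_of_nonneg_left hu2 hγ0.le
          _ ≤ _ := h6
  have hCpos : ∀ s : ℕ, (u0 : ℝ) * γ ^ s ≤ C * β ^ s := by
    intro s
    obtain ⟨u, hu1, hu2⟩ := hseq s
    have h1 := hC s _ hu1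
    have h2 : (u : ℝ) ≤ ((r * u : ℕ) : ℝ) := by
      have : u ≤ r * u := Nat.le_mul_of_pos_left _ hr
      exact_mod_cast this
    linarith
  obtain ⟨s, hs⟩ := pow_unbounded_of_one_lt (C / u0) ((one_lt_div hβ0).2 hγ1)
  have h1 := hCpos s
  rw [div_pow, div_lt_div_iff₀ hu0pos (pow_pos hβ0 s)] at hs
  linarith

/-- Systems of forms of different degrees. -/
theorem system_real {J ι : Type} [Fintype J] [Fintype ι] (f : J → MvPolynomial ι K) (d : J → ℕ)
    (hf : ∀ j, (f j).IsHomogeneous (d j)) (hani : Aniso f) (D : ℕ) (e m : J → ℕ)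
    (he : ∀ j, e j * d j = D) (hm : ∀ j, 0 < m j) (hN : ∀ j, HasForm K (e j) (Fin (m j)))
    (β : ℝ) (hβ : 1 ≤ β) (hG : Growth K D β) :
    (Fintype.card ι : ℝ) ≤ ∑ j, β / m j := by
  classical
  choose N hN1 hN2 using hN
  let P := ∀ j, Fin (m j)
  let R : J → Type := fun j => ∀ j' : {j' : J // j' ≠ j}, Fin (m (j' : J))
  let E : ∀ j, P ≃ Fin (m j) × R j := fun j => Equiv.piSplitAt j fun j => Fin (m j)
  let T := Σ j, R j
  have hP : 0 < Fintype.card P := by
    rw [Fintype.card_pi]
    exact Finset.prod_pos fun j _ => by simpa using hm j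
  have hcard : ∀ j, Fintype.card P = m j * Fintype.card (R j) := fun j => by
    rw [Fintype.card_congr (E j), Fintype.card_prod, Fintype.card_fin]
  let g : T → MvPolynomial (P × ι) K := fun t =>
    bind₁ (fun s => copy (f t.1) ((E t.1).symm (s, t.2))) (N t.1)
  have hg : ∀ t, (g t).IsHomogeneous D := fun t => by
    have := bind_hom (N t.1) (fun s => copy (f t.1) ((E t.1).symm (s, t.2))) (e t.1) (d t.1)
      (hN1 t.1) (fun s => copy_hom _ _ (hf t.1))
    rwa [he] at this
  have hgani : Aniso g := by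
    intro x hx
    funext cv
    obtain ⟨c, v⟩ := cv
    have h0 : (fun v => x (c, v)) = 0 := hani _ fun j => by
      have h1 := hx ⟨j, (E j c).2⟩
      have h2 : eval x (g ⟨j, (E j c).2⟩) =
          eval (fun s => eval x (copy (f j) ((E j).symm (s, (E j c).2)))) (N j) := eval_bind _ _ _
      rw [h2] at h1
      have h3 := congrFun (hN2 j _ h1) (E j c).1
      have h4 : (E j).symm ((E j c).1, (E j c).2) = c := (E j).symm_apply_apply c
      simp only [h4, eval_copy] at h3
      exact h3
    exact congrFun h0 v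
  have h1 := nagata_real g D hg hgani β hβ hG
  have h2 : (Fintype.card T : ℝ) = ∑ j, (Fintype.card P : ℝ) / m j := by
    rw [Fintype.card_sigma, Nat.cast_sum]
    refine Finset.sum_congr rfl fun j _ => ?_
    rw [hcard j, Nat.cast_mul]
    have : (m j : ℝ) ≠ 0 := by exact_mod_cast (hm j).ne'
    field_simp
  rw [h2, Fintype.card_prod, Nat.cast_mul, Finset.sum_mul] at h1
  have hP' : (0 : ℝ) < Fintype.card P := by exact_mod_cast hP
  have h3 : ∑ j, (Fintype.card P : ℝ) / m j * β = Fintype.card P * ∑ j, β / m j := by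
    rw [Finset.mul_sum]
    exact Finset.sum_congr rfl fun j _ => by ring
  rw [h3] at h1
  exact le_of_mul_le_mul_left h1 hP'

end Pool.Agent.Helper47.Ci
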