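import Pool.Agent.Helper47.Ci.NormForm

/-!
# Degrees of extensions of a field which is not algebraically closed
-/

set_option autoImplicit false

open MvPolynomial Pool.Agent.H19CI

namespace Pool.Agent.Helper47.Ci

variable {K : Type*} [Field K]

/-- A field which is not algebraically closed has an extension of prime power degree `> 1`, or
extensions of degrees `a, b_1, b_2, … > 1` with greatest common divisor `1`. -/
theorem degrees_dichotomy (halg : ¬ IsAlgClosed K) :
    (∃ p a : ℕ, p.Prime ∧ 0 < a ∧ HasForm K (p ^ a) (Fin (p ^ a))) ∨
      ∃ a : ℕ, 2 ≤ a ∧ HasForm K a (Fin a) ∧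
        ∀ q : ℕ, q.Prime → q ∣ a → ∃ b : ℕ, 2 ≤ b ∧ ¬ q ∣ b ∧ HasForm K b (Fin b) := by
  classical
  by_cases hperf : PerfectField K
  · -- a nontrivial Galois extension
    have h1 : ∃ P : Polynomial K, P.Monic ∧ Irreducible P ∧ ¬ ∃ x, Polynomial.eval x P = 0 := by
      by_contra hcon
      push Not at hcon
      exact halg (IsAlgClosed.of_exists_root K fun P hP1 hP2 => hcon P hP1 hP2)
    obtain ⟨P, hP1, hP2, hP3⟩ := h1
    have hsep : P.Separable := PerfectField.separable_of_irreducible hP2
    let L := P.SplittingField
    have : IsGalois K L := IsGalois.of_separable_splitting_field hsep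
    set n := Module.finrank K L with hn
    have hnpos : 0 < n := Module.finrank_pos
    have hn1 : n ≠ 1 := by
      intro h
      apply hP3
      have hdeg : P.degree ≠ 0 := (Polynomial.degree_pos_of_irreducible hP2).ne'
      have hdeg' : (P.map (algebraMap K L)).degree ≠ 0 := by rwa [Polynomial.degree_map]
      obtain ⟨y, hy⟩ := (Polynomial.SplittingField.splits P).exists_eval_eq_zero hdeg'
      have hbot : (⊥ : IntermediateField K L) = ⊤ :=
        IntermediateField.bot_eq_top_iff_finrank_eq_one.2 h
      have hymem : y ∈ (⊥ : IntermediateField K L) := by rw [hbot]; trivial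
      obtain ⟨x, hx⟩ := IntermediateField.mem_bot.1 hymem
      refine ⟨x, ?_⟩
      rw [← hx, Polynomial.eval_map_algebraMap, Polynomial.aeval_algebraMap_apply] at hy
      have := (FaithfulSMul.algebraMap_injective K L) (hy.trans (map_zero _).symm)
      rwa [Polynomial.coe_aeval_eq_eval] at this
    by_cases hpp : ∃ p a : ℕ, p.Prime ∧ 0 < a ∧ n = p ^ a
    · obtain ⟨p, a, hp, ha, hpa⟩ := hpp
      left
      refine ⟨p, a, hp, ha, ?_⟩
      have h2 := hasForm_norm (K := K) L
      rwa [← hn, hpa] at h2
    · right
      refine ⟨n, by omega, hasForm_norm (K := K) L, fun q hq hqn => ?_⟩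
      have : Fact q.Prime := ⟨hq⟩
      obtain ⟨v, m, hm, hnm⟩ := Nat.exists_eq_pow_mul_and_not_dvd hnpos.ne' q hq.ne_one
      have hcard : Nat.card (L ≃ₐ[K] L) = n := IsGalois.card_aut_eq_finrank K L
      obtain ⟨H, hH⟩ := Sylow.exists_subgroup_card_pow_prime (G := L ≃ₐ[K] L) q (n := v)
        (by rw [hcard, hnm]; exact Dvd.intro _ rfl)
      let F := IntermediateField.fixedField H
      have h2 : Module.finrank F L = q ^ v := by
        rw [← hH]
        exact IntermediateField.finrank_fixedField_eq_card H
      have h3 : Module.finrank K F * Module.finrank F L = n := Module.finrank_mul_finrank K F L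
      have h4 : Module.finrank K F = m := by
        rw [h2, hnm, mul_comm] at h3
        exact Nat.eq_of_mul_eq_mul_left (Nat.pow_pos hq.pos) h3
      refine ⟨m, ?_, hm, ?_⟩
      · by_contra hlt
        have hm0 : m ≠ 0 := by
          rintro rfl
          exact hm (dvd_zero q)
        have hm1 : m = 1 := by omega
        rw [hm1, mul_one] at hnm
        apply hpp
        refine ⟨q, v, hq, Nat.pos_of_ne_zero fun h => ?_, hnm⟩
        rw [h, pow_zero] at hnm
        exact hn1 hnm
      · have h5 := hasForm_norm (K := K) F
        rwa [h4] at h5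
  · -- a purely inseparable extension
    left
    obtain ⟨p, hchar⟩ := CharP.exists K
    rcases CharP.char_is_prime_or_zero K p with hp | hp
    · have : Fact p.Prime := ⟨hp⟩
      have : ExpChar K p := ExpChar.prime hp
      have h1 : ¬ Function.Surjective (frobenius K p) := by
        intro hs
        have := PerfectRing.ofSurjective K p hs
        exact hperf (PerfectRing.toPerfectField K p)
      rw [Function.Surjective] at h1
      push Not at h1
      obtain ⟨a, ha⟩ := h1
      have hirr : Irreducible (Polynomial.X ^ p - Polynomial.C a : Polynomial K) :=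
        X_pow_sub_C_irreducible_of_prime hp fun b hb => ha b (by rwa [frobenius_def])
      have : Fact (Irreducible (Polynomial.X ^ p - Polynomial.C a : Polynomial K)) := ⟨hirr⟩
      let L := AdjoinRoot (Polynomial.X ^ p - Polynomial.C a : Polynomial K)
      have : FiniteDimensional K L := (AdjoinRoot.powerBasis hirr.ne_zero).finite
      have h2 : Module.finrank K L = p := by
        rw [(AdjoinRoot.powerBasis hirr.ne_zero).finrank, AdjoinRoot.powerBasis_dim,
          Polynomial.natDegree_X_pow_sub_C]
      refine ⟨p, 1, hp, one_pos, ?_⟩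
      have h3 := hasForm_norm (K := K) L
      rwa [h2, ← pow_one p] at h3
    · exfalso
      subst hp
      have : CharZero K := CharP.charP_to_charZero K
      exact hperf inferInstance

end Pool.Agent.Helper47.Ci
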