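import Pool.Graph.R_pool_sql_team_seeded_620a6dc7.H19CI.E

/-!
# Normic forms of degrees with greatest common divisor one
-/

set_option autoImplicit false

open MvPolynomial Pool.Agent.H19CI

namespace Pool.Agent.Helper47.Ci

variable {K : Type*} [Field K]

theorem exists_digits {T : Type} [Fintype T] (a : ℕ) (ha : 2 ≤ a) (B : T → ℕ)
    (h : ∀ q : ℕ, q.Prime → q ∣ a → ∃ t, ¬ q ∣ B t) (N : ℕ) :
    ∃ v : T → ℕ, (∀ t, v t < a) ∧ ∃ R : ℤ, (N : ℤ) = R * a + ∑ t, (v t : ℤ) * B t := by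
  classical
  -- Bezout
  have h1 : ∃ (c : T → ℤ) (c0 : ℤ), ∑ t, c t * B t + c0 * a = 1 := by
    let I : Ideal ℤ := Ideal.span (Set.range fun t => (B t : ℤ)) ⊔ Ideal.span {(a : ℤ)}
    have hI : I = ⊤ := by
      by_contra hne
      obtain ⟨M, hM, hIM⟩ := Ideal.exists_le_maximal I hne
      obtain ⟨q, hq⟩ := (IsPrincipalIdealRing.principal M).principal
      have hq' : M = Ideal.span {q} := hq
      have hqmem : ∀ x ∈ I, q ∣ x := fun x hx => by
        have := hIM hx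
        rw [hq', Ideal.mem_span_singleton] at this
        exact this
      have hadvd : q ∣ (a : ℤ) := hqmem _ (Ideal.mem_sup_right (Ideal.mem_span_singleton_self _))
      have hBdvd : ∀ t, q ∣ (B t : ℤ) := fun t =>
        hqmem _ (Ideal.mem_sup_left (Ideal.subset_span ⟨t, rfl⟩))
      have hq0 : q ≠ 0 := by
        rintro rfl
        rw [zero_dvd_iff] at hadvd
        have : a = 0 := by exact_mod_cast hadvd
        omega
      have hqprime : Prime q := by
        have h2 : (Ideal.span {q}).IsPrime := hq' ▸ hM.isPrime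
        exact (Ideal.span_singleton_prime hq0).1 h2
      obtain ⟨t, ht⟩ := h q.natAbs (Int.prime_iff_natAbs_prime.1 hqprime)
        (by rw [← Int.natCast_dvd_natCast, Int.natAbs_dvd]; exact hadvd)
      apply ht
      rw [← Int.natCast_dvd_natCast, Int.natAbs_dvd]
      exact hBdvd t
    have h2 : (1 : ℤ) ∈ I := by rw [hI]; trivial
    obtain ⟨x, hx, y, hy, hxy⟩ := Submodule.mem_sup.1 h2
    obtain ⟨c, hc⟩ := (Submodule.mem_span_range_iff_exists_fun ℤ).1 hx
    obtain ⟨c0, hc0⟩ := Ideal.mem_span_singleton'.1 hy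
    refine ⟨c, c0, ?_⟩
    rw [← hxy, ← hc, ← hc0]
    simp
  obtain ⟨c, c0, hc⟩ := h1
  have ha0 : (a : ℤ) ≠ 0 := by exact_mod_cast (show a ≠ 0 by omega)
  refine ⟨fun t => ((N * c t) % a).toNat, fun t => ?_, N * c0 + ∑ t, ((N * c t) / a) * B t, ?_⟩
  · have h2 := Int.emod_lt_of_pos (N * c t) (show (0 : ℤ) < a by exact_mod_cast (show 0 < a by omega))
    have h3 := Int.emod_nonneg (N * c t) ha0
    show ((N * c t) % a).toNat < a
    omega
  · have h3 : ∀ t, ((((N * c t) % a).toNat : ℕ) : ℤ) = (N * c t) % a := fun t =>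
      Int.toNat_of_nonneg (Int.emod_nonneg _ ha0)
    simp only [h3]
    have h4 : ∀ t, (N * c t) % a = N * c t - a * ((N * c t) / a) := fun t => by
      have := Int.emod_add_mul_ediv (N * c t) a
      linarith
    simp only [h4]
    rw [add_mul, Finset.sum_mul, add_assoc, ← Finset.sum_add_distrib]
    have h5 : ∀ t, N * c t / ↑a * ↑(B t) * ↑a + (↑N * c t - ↑a * (↑N * c t / ↑a)) * ↑(B t) =
        N * (c t * B t) := fun t => by ring
    rw [Finset.sum_congr rfl fun t _ => h5 t, ← Finset.mul_sum]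
    have h6 : (N : ℤ) * (∑ t, c t * B t + c0 * a) = N := by rw [hc, mul_one]
    linarith

theorem HasForm.sum {T : Type} (s : Finset T) (v u : T → ℕ) (m N : ℕ)
    (hN : HasForm K N (Fin m)) (h : ∀ t ∈ s, HasForm K (u t) (Fin m)) :
    HasForm K (N + ∑ t ∈ s, v t * u t) (Fin m) := by
  classical
  induction s using Finset.induction_on with
  | empty => simpa using hN
  | insert t s ht ih =>
    rw [Finset.sum_insert ht, add_left_comm]
    have h1 := ih fun t' ht' => h t' (Finset.mem_insert_of_mem ht')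
    rcases Nat.eq_zero_or_pos (v t) with h0 | h0
    · rw [h0, zero_mul, zero_add]
      exact h1
    · exact ((h t (Finset.mem_insert_self _ _)).mul_left (v t) h0).add h1

/-- sums of large products of powers of the degrees -/
theorem repr_gcd {T : Type} [Fintype T] {a i : ℕ} {b : T → ℕ} (ha : 2 ≤ a) (hb : ∀ t, 2 ≤ b t)
    (hab : ∀ q : ℕ, q.Prime → q ∣ a → ∃ t, ¬ q ∣ b t)
    (hA : HasForm K a (Fin (a ^ i))) (hB : ∀ t, HasForm K (b t) (Fin ((b t) ^ i))) (X : ℕ) :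
    ∀ s ≤ X, ∀ N, 0 < N → a ^ (X - s) ∣ N → s * (a * (∑ t, b t) * a ^ X) ≤ N →
      HasForm K N (Fin ((a ^ X) ^ i)) := by
  classical
  have hgen : ∀ (x y : ℕ) (t : T), a ^ X ≤ a ^ x * (b t) ^ y →
      HasForm K (a ^ x * (b t) ^ y) (Fin ((a ^ X) ^ i)) := by
    intro x y t hxy
    have h1 := (hA.pow x).compFin ((hB t).pow y)
    refine h1.mono ?_
    have h2 : (a ^ i) ^ x * ((b t) ^ i) ^ y = (a ^ x * (b t) ^ y) ^ i := by
      rw [mul_pow, ← pow_mul, ← pow_mul, ← pow_mul, ← pow_mul, mul_comm i x, mul_comm i y]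
    rw [h2]
    exact Nat.pow_le_pow_left hxy i
  have hT : 0 < ∑ t, b t := by
    obtain ⟨q, hq, hqa⟩ := Nat.exists_prime_and_dvd (show a ≠ 1 by omega)
    obtain ⟨t, -⟩ := hab q hq hqa
    exact Finset.sum_pos (fun t _ => lt_of_lt_of_le two_pos (hb t)) ⟨t, Finset.mem_univ t⟩
  intro s
  induction s with
  | zero =>
    intro _ N hN hdvd _
    obtain ⟨v, rfl⟩ := hdvd
    rw [Nat.sub_zero, mul_comm] at *
    have hv : 0 < v := Nat.pos_of_ne_zero fun h => by rw [h, zero_mul] at hN; exact lt_irrefl _ hN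
    refine HasForm.mul_left ?_ v hv
    have h1 := (hA.pow X)
    rwa [← pow_mul, mul_comm i X, pow_mul] at h1
  | succ s ih =>
    intro hs N hN hdvd hle
    set x := X - (s + 1) with hx
    have hxs : X - s = x + 1 := by omega
    have hex : ∀ t, ∃ y, a ^ X ≤ a ^ x * (b t) ^ y := by
      intro t
      refine ⟨a ^ X, ?_⟩
      calc a ^ X ≤ (b t) ^ (a ^ X) := (Nat.lt_pow_self (hb t)).le
        _ = 1 * (b t) ^ (a ^ X) := (one_mul _).symm
        _ ≤ a ^ x * (b t) ^ (a ^ X) := Nat.mul_le_mul_right _ (Nat.one_le_pow _ _ (by omega))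
    let y : T → ℕ := fun t => Nat.find (hex t)
    have hy : ∀ t, a ^ X ≤ a ^ x * (b t) ^ (y t) := fun t => Nat.find_spec (hex t)
    have hypos : ∀ t, 0 < y t := by
      intro t
      refine Nat.pos_of_ne_zero fun h => ?_
      have h2 := hy t
      rw [h, pow_zero, mul_one] at h2
      exact absurd h2 (not_le.2 (Nat.pow_lt_pow_right (by omega) (by omega)))
    have hylt : ∀ t, a ^ x * (b t) ^ (y t) ≤ b t * a ^ X := by
      intro t
      have h1 : ¬ a ^ X ≤ a ^ x * (b t) ^ (y t - 1) :=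
        Nat.find_min (hex t) (show y t - 1 < y t by have := hypos t; omega)
      push Not at h1
      have h2 : (b t) ^ (y t) = (b t) ^ (y t - 1) * b t := by
        rw [← pow_succ]; congr 1; have := hypos t; omega
      calc a ^ x * (b t) ^ (y t) = (a ^ x * (b t) ^ (y t - 1)) * b t := by rw [h2, mul_assoc]
        _ ≤ a ^ X * b t := Nat.mul_le_mul_right _ h1.le
        _ = b t * a ^ X := mul_comm _ _
    obtain ⟨N1, rfl⟩ := hdvd
    obtain ⟨v, hv1, R, hR⟩ := exists_digits a ha (fun t => (b t) ^ (y t)) (by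
      intro q hq hqa
      obtain ⟨t, ht⟩ := hab q hq hqa
      exact ⟨t, fun h => ht (hq.dvd_of_dvd_pow h)⟩) N1
    have hcost : ∑ t, v t * (a ^ x * (b t) ^ (y t)) ≤ (a - 1) * ((∑ t, b t) * a ^ X) := by
      rw [Finset.sum_mul, Finset.mul_sum]
      exact Finset.sum_le_sum fun t _ => Nat.mul_le_mul (by have := hv1 t; omega) (hylt t)
    have hMpos : 0 < (∑ t, b t) * a ^ X := Nat.mul_pos hT (Nat.pow_pos (by omega))
    have hbig : s * (a * (∑ t, b t) * a ^ X) + (∑ t, b t) * a ^ X +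
        ∑ t, v t * (a ^ x * (b t) ^ (y t)) ≤ a ^ x * N1 := by
      have h4 : (s + 1) * (a * (∑ t, b t) * a ^ X) =
          s * (a * (∑ t, b t) * a ^ X) + a * ((∑ t, b t) * a ^ X) := by ring
      have h5 : a * ((∑ t, b t) * a ^ X) = (a - 1) * ((∑ t, b t) * a ^ X) +
          (∑ t, b t) * a ^ X := by
        have h6 : (a - 1) + 1 = a := by omega
        calc a * ((∑ t, b t) * a ^ X) = ((a - 1) + 1) * ((∑ t, b t) * a ^ X) := by rw [h6]
          _ = _ := by rw [Nat.add_mul, one_mul]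
      omega
    have hRpos : 0 < R := by
      have h6 : ((a ^ x * N1 : ℕ) : ℤ) = a ^ x * (R * a) +
          ((∑ t, v t * (a ^ x * (b t) ^ (y t)) : ℕ) : ℤ) := by
        push_cast at hR ⊢
        rw [hR, mul_add, Finset.mul_sum]
        congr 1
        exact Finset.sum_congr rfl fun t _ => by ring
      have h7 : ((s * (a * (∑ t, b t) * a ^ X) + (∑ t, b t) * a ^ X +
        ∑ t, v t * (a ^ x * (b t) ^ (y t)) : ℕ) : ℤ) ≤ ((a ^ x * N1 : ℕ) : ℤ) := by
        exact_mod_cast hbig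
      have h8 : (0 : ℤ) < ((s * (a * (∑ t, b t) * a ^ X) + (∑ t, b t) * a ^ X : ℕ) : ℤ) := by
        exact_mod_cast (show 0 < s * (a * (∑ t, b t) * a ^ X) + (∑ t, b t) * a ^ X by omega)
      have h9 : (0 : ℤ) < a ^ x * (R * a) := by
        rw [Nat.cast_add] at h7
        linarith
      have h10 : (0 : ℤ) < a ^ x := by
        have : 0 < a := by omega
        positivity
      have h11 : (0 : ℤ) < a := by exact_mod_cast (show 0 < a by omega)
      exact (mul_pos_iff_of_pos_right h11).1 ((mul_pos_iff_of_pos_left h10).1 h9)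
    obtain ⟨R', rfl⟩ := Int.eq_ofNat_of_zero_le hRpos.le
    have hR'pos : 0 < R' := by exact_mod_cast hRpos
    have hsum : a ^ x * N1 = a ^ x * (R' * a) + ∑ t, v t * (a ^ x * (b t) ^ (y t)) := by
      have h1 : N1 = R' * a + ∑ t, v t * (b t) ^ (y t) := by exact_mod_cast hR
      rw [h1, mul_add, Finset.mul_sum]
      congr 1
      exact Finset.sum_congr rfl fun t _ => by ring
    have h10 : HasForm K (a ^ x * (R' * a)) (Fin ((a ^ X) ^ i)) := by
      refine ih (by omega) _ (Nat.mul_pos (Nat.pow_pos (by omega))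
        (Nat.mul_pos hR'pos (by omega))) ?_ (by omega)
      rw [hxs, pow_succ, mul_comm R' a, ← mul_assoc]
      exact Dvd.intro _ rfl
    rw [hsum]
    exact HasForm.sum Finset.univ v _ _ _ h10 fun t _ => hgen x (y t) t (hy t)

theorem growth_gcd {T : Type} [Fintype T] {a i : ℕ} {b : T → ℕ} (ha : 2 ≤ a) (hb : ∀ t, 2 ≤ b t)
    (hab : ∀ q : ℕ, q.Prime → q ∣ a → ∃ t, ¬ q ∣ b t)
    (hA : HasForm K a (Fin (a ^ i))) (hB : ∀ t, HasForm K (b t) (Fin ((b t) ^ i)))
    (e : ℕ) (he : 2 ≤ e)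
    (τ : ℝ) (hτ : 1 / 2 ≤ τ) (hτ1 : τ < 1) :
    ∃ k m : ℕ, 0 < k ∧ HasForm K (e ^ k) (Fin m) ∧ ((e * τ) ^ i) ^ k ≤ m := by
  set b' := ∑ t, b t with hb'
  have hT : 0 < b' := by
    obtain ⟨q, hq, hqa⟩ := Nat.exists_prime_and_dvd (show a ≠ 1 by omega)
    obtain ⟨t, -⟩ := hab q hq hqa
    exact Finset.sum_pos (fun t _ => lt_of_lt_of_le two_pos (hb t)) ⟨t, Finset.mem_univ t⟩
  have hτ0 : 0 < τ := by linarith
  have h1 := tendsto_self_mul_const_pow_of_lt_one hτ0.le hτ1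
  have hpos : (0 : ℝ) < 1 / ((e : ℝ) * a ^ 2 * b') := by
    have : (0 : ℝ) < b' := by exact_mod_cast hT
    positivity
  obtain ⟨k, hk, hk0⟩ := ((h1.eventually (gt_mem_nhds hpos)).and
    (Filter.eventually_gt_atTop 0)).exists
  have hc1 : (1 : ℝ) ≤ e * τ := by
    have : (2 : ℝ) ≤ e := by exact_mod_cast he
    nlinarith
  have hck : (1 : ℝ) ≤ (e * τ) ^ k := one_le_pow₀ hc1
  have ha' : (2 : ℝ) ≤ a := by exact_mod_cast ha
  classical
  have hex : ∃ X : ℕ, (e * τ : ℝ) ^ k ≤ (a : ℝ) ^ X := by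
    obtain ⟨X, hX⟩ := pow_unbounded_of_one_lt ((e * τ : ℝ) ^ k) (show (1 : ℝ) < a by linarith)
    exact ⟨X, hX.le⟩
  let X := Nat.find hex
  have hX : (e * τ : ℝ) ^ k ≤ (a : ℝ) ^ X := Nat.find_spec hex
  have hek : (0 : ℝ) < (e : ℝ) ^ k := by positivity
  have hXle : (X : ℝ) * (a * b' * a ^ X) ≤ (e : ℝ) ^ k := by
    rcases Nat.eq_zero_or_pos X with h | h
    · rw [h]; simp
    · have h2 : ¬ (e * τ : ℝ) ^ k ≤ (a : ℝ) ^ (X - 1) := Nat.find_min hex (by omega)
      push Not at h2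
      have h3 : (a : ℝ) ^ X = a ^ (X - 1) * a := by rw [← pow_succ]; congr 1; omega
      have h4 : (a : ℝ) ^ X ≤ (e * τ) ^ k * a := by
        rw [h3]; exact mul_le_mul_of_nonneg_right h2.le (by positivity)
      have h5 : X ≤ e * k := by
        have h6 : (2 : ℝ) ^ (X - 1) < 2 ^ (e * k) := by
          calc (2 : ℝ) ^ (X - 1) ≤ a ^ (X - 1) := pow_le_pow_left₀ (by norm_num) ha' _
            _ < (e * τ) ^ k := h2
            _ ≤ (e : ℝ) ^ k := pow_le_pow_left₀ (by positivity) (by nlinarith) _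
            _ ≤ (2 ^ e : ℝ) ^ k := pow_le_pow_left₀ (by positivity)
                (by exact_mod_cast (Nat.lt_two_pow_self).le) _
            _ = 2 ^ (e * k) := by rw [pow_mul]
        have h7 := (pow_lt_pow_iff_right₀ (one_lt_two)).1 h6
        omega
      have h8 : (X : ℝ) ≤ e * k := by exact_mod_cast h5
      have h9 : (k : ℝ) * τ ^ k * ((e : ℝ) * a ^ 2 * b') ≤ 1 := by
        rw [lt_div_iff₀ (by have : (0 : ℝ) < b' := by exact_mod_cast hT
                            positivity)] at hk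
        exact hk.le
      calc (X : ℝ) * (a * b' * a ^ X) ≤ (e * k) * (a * b' * ((e * τ) ^ k * a)) := by
            apply mul_le_mul h8 _ (by positivity) (by positivity)
            exact mul_le_mul_of_nonneg_left h4 (by positivity)
        _ = (e : ℝ) ^ k * ((k : ℝ) * τ ^ k * ((e : ℝ) * a ^ 2 * b')) := by rw [mul_pow]; ring
        _ ≤ (e : ℝ) ^ k * 1 := mul_le_mul_of_nonneg_left h9 hek.le
        _ = _ := mul_one _
  refine ⟨k, (a ^ X) ^ i, hk0, ?_, ?_⟩
  · refine repr_gcd ha hb hab hA hB X X le_rfl (e ^ k) (Nat.pow_pos (by omega)) ?_ ?_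
    · rw [Nat.sub_self, pow_zero]; exact one_dvd _
    · exact_mod_cast hXle
  · rw [← pow_mul, mul_comm i k, pow_mul]
    push_cast
    exact pow_le_pow_left₀ (by positivity) hX _

/-- Asymptotically normic forms of all degrees `s * E` suffice. -/
theorem strongly_of_growth {i : ℕ} (hK : IsC K i) (halg : ¬ IsAlgClosed K)
    (hgrowth : ∀ S : Finset ℕ, (∀ E ∈ S, 0 < E) → ∃ s : ℕ, 0 < s ∧ ∀ E ∈ S, 2 ≤ s * E →
      ∀ τ : ℝ, 1 / 2 ≤ τ → τ < 1 →
      ∃ k m : ℕ, 0 < k ∧ HasForm K ((s * E) ^ k) (Fin m) ∧ ((((s * E : ℕ) : ℝ) * τ) ^ i) ^ k ≤ m)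
    {J ι : Type} [Fintype J] [Fintype ι]
    (f : J → MvPolynomial ι K) (d : J → ℕ) (hd : ∀ j, 0 < d j)
    (hf : ∀ j, (f j).IsHomogeneous (d j)) (hlt : ∑ j, d j ^ i < Fintype.card ι) :
    ∃ x : ι → K, x ≠ 0 ∧ ∀ j, eval x (f j) = 0 := by
  classical
  set n := Fintype.card ι with hn
  set D0 := ∏ j, d j with hD0def
  have hD0 : 0 < D0 := Finset.prod_pos fun j _ => hd j
  have hdvd : ∀ j, d j ∣ D0 := fun j => Finset.dvd_prod_of_mem _ (Finset.mem_univ j)
  have hdpos : ∀ j, 0 < D0 / d j := fun j =>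
    Nat.div_pos (Nat.le_of_dvd hD0 (hdvd j)) (hd j)
  obtain ⟨s, hs0, hsg⟩ := hgrowth (Finset.univ.image fun j => D0 / d j) (by
    intro E hE
    obtain ⟨j, -, rfl⟩ := Finset.mem_image.1 hE
    exact hdpos j)
  set D := s * D0 with hDdef
  have hD : 0 < D := Nat.mul_pos hs0 hD0
  set e : J → ℕ := fun j => s * (D0 / d j) with he
  have hed : ∀ j, e j * d j = D := fun j => by
    rw [he]
    simp only
    rw [mul_assoc, Nat.div_mul_cancel (hdvd j)]
  have hepos : ∀ j, 0 < e j := fun j => Nat.mul_pos hs0 (hdpos j)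
  -- the loss
  set δ : ℝ := 1 / ((n : ℝ) * (i + 1) + 1) with hδ
  have hnpos : (1 : ℝ) ≤ n := by
    have : 1 ≤ n := by omega
    exact_mod_cast this
  have hden : (2 : ℝ) ≤ (n : ℝ) * (i + 1) + 1 := by
    have : (0 : ℝ) ≤ i := Nat.cast_nonneg i
    nlinarith
  have hδ0 : 0 < δ := by positivity
  have hδ2 : δ ≤ 1 / 2 := one_div_le_one_div_of_le (by norm_num) hden
  set τ : ℝ := 1 - δ with hτ
  have hτ1 : τ < 1 := by linarith
  have hτ2 : 1 / 2 ≤ τ := by linarith
  have hτ0 : 0 < τ := by linarith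
  have hbern : 1 - (i : ℝ) * δ ≤ τ ^ i := by
    have := one_add_mul_le_pow (show (-2 : ℝ) ≤ -δ by linarith) i
    have h2 : (1 : ℝ) + -δ = τ := by rw [hτ]; ring
    rw [h2] at this
    linarith
  have hs : ((∑ j, d j ^ i : ℕ) : ℝ) < n * τ ^ i := by
    have h1 : ((∑ j, d j ^ i : ℕ) : ℝ) ≤ n - 1 := by
      have : (∑ j, d j ^ i) + 1 ≤ n := hlt
      have h2 : (((∑ j, d j ^ i) + 1 : ℕ) : ℝ) ≤ n := by exact_mod_cast this
      push_cast at h2 ⊢
      linarith
    have h2 : (n : ℝ) * (i * δ) < 1 := by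
      rw [hδ]
      rw [mul_one_div, ← mul_div_assoc, div_lt_one (by positivity)]
      nlinarith
    have h3 : (n : ℝ) * (1 - i * δ) ≤ n * τ ^ i := mul_le_mul_of_nonneg_left hbern (by linarith)
    linarith
  have hgr : ∀ j, ∃ k m : ℕ, ∃ γ : ℝ, 0 < k ∧ 1 ≤ γ ∧ HasForm K (e j ^ k) (Fin m) ∧
      γ ^ k ≤ m ∧ (e j * τ) ^ i ≤ γ := by
    intro j
    rcases Nat.lt_or_ge (e j) 2 with h | h
    · have h1 : e j = 1 := by have := hepos j; omega
      refine ⟨1, 1, 1, one_pos, le_rfl, ?_, by simp, ?_⟩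
      · rw [h1, one_pow]; exact HasForm.one one_pos
      · rw [h1, Nat.cast_one, one_mul]; exact pow_le_one₀ hτ0.le hτ1.le
    · obtain ⟨k, m, hk, hm, hle⟩ := hsg (D0 / d j)
        (Finset.mem_image.2 ⟨j, Finset.mem_univ j, rfl⟩) h τ hτ2 hτ1
      refine ⟨k, m, (e j * τ) ^ i, hk, ?_, hm, hle, le_rfl⟩
      refine one_le_pow₀ ?_
      have : (2 : ℝ) ≤ e j := by exact_mod_cast h
      nlinarith
  choose k m γ hk hγ hN hle hγe using hgr
  refine system_growth hK halg f d hf D hD e k m hed hk γ hγ hN hle ?_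
  have h1 : ∀ j, (D : ℝ) ^ i / γ j ≤ (d j : ℝ) ^ i / τ ^ i := by
    intro j
    have h2 : (0 : ℝ) < e j := by exact_mod_cast hepos j
    have h3 : (D : ℝ) = e j * d j := by exact_mod_cast (hed j).symm
    have h4 : (0 : ℝ) < (e j * τ) ^ i := by positivity
    calc (D : ℝ) ^ i / γ j ≤ (D : ℝ) ^ i / (e j * τ) ^ i :=
          div_le_div_of_nonneg_left (by positivity) h4 (hγe j)
      _ = (d j : ℝ) ^ i / τ ^ i := by
          rw [h3, mul_pow, mul_pow]
          field_simp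
  refine (Finset.sum_le_sum fun j _ => h1 j).trans_lt ?_
  rw [← Finset.sum_div, div_lt_iff₀ (by positivity)]
  push_cast at hs
  exact hs

theorem strongly_of_gcd {i : ℕ} (hK : IsC K i) (halg : ¬ IsAlgClosed K) {T : Type} [Fintype T]
    {a : ℕ} {b : T → ℕ} (ha : 2 ≤ a) (hb : ∀ t, 2 ≤ b t)
    (hab : ∀ q : ℕ, q.Prime → q ∣ a → ∃ t, ¬ q ∣ b t)
    (hA : HasForm K a (Fin (a ^ i))) (hB : ∀ t, HasForm K (b t) (Fin ((b t) ^ i)))
    {J ι : Type} [Fintype J] [Fintype ι]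
    (f : J → MvPolynomial ι K) (d : J → ℕ) (hd : ∀ j, 0 < d j)
    (hf : ∀ j, (f j).IsHomogeneous (d j)) (hlt : ∑ j, d j ^ i < Fintype.card ι) :
    ∃ x : ι → K, x ≠ 0 ∧ ∀ j, eval x (f j) = 0 := by
  refine strongly_of_growth hK halg (fun S _ => ⟨1, one_pos, fun E _ hE τ hτ hτ1 => ?_⟩) f d hd hf
    hlt
  exact growth_gcd ha hb hab hA hB (1 * E) hE τ hτ hτ1

end Pool.Agent.Helper47.Ci
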