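import Pool.Agent.Helper47.Ci.PrimePower
import Pool.Agent.Helper47.Ci.Degrees
import Pool.Agent.Helper47.Ci.GcdNormic
import Pool.Agent.Helper47.Ci.AlgClosed

/-!
# Every `C_1` field is strongly `C_1`
-/

set_option autoImplicit false

open MvPolynomial Pool.Agent.H19CI

namespace Pool.Agent.Helper47.Ci

variable {K : Type*} [Field K]

/-- A `C_0` field is algebraically closed. -/
theorem isAlgClosed_of_isC_zero (hK : IsC K 0) : IsAlgClosed K := by
  by_contra halg
  obtain ⟨e, he, h⟩ := exists_binary halg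
  have := h.card_le hK he
  rw [Fintype.card_fin, pow_zero] at this
  omega

theorem strongly_zero (hK : IsC K 0) {J ι : Type} [Fintype J] [Fintype ι]
    (f : J → MvPolynomial ι K) (d : J → ℕ) (hd : ∀ j, 0 < d j)
    (hf : ∀ j, (f j).IsHomogeneous (d j)) (hlt : ∑ j, d j ^ 0 < Fintype.card ι) :
    ∃ x : ι → K, x ≠ 0 ∧ ∀ j, eval x (f j) = 0 := by
  have := isAlgClosed_of_isC_zero hK
  refine algClosed_system f d hd hf ?_
  simpa using hlt

theorem strongly_one (hK : IsC K 1) {J ι : Type} [Fintype J] [Fintype ι]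
    (f : J → MvPolynomial ι K) (d : J → ℕ) (hd : ∀ j, 0 < d j)
    (hf : ∀ j, (f j).IsHomogeneous (d j)) (hlt : ∑ j, d j ^ 1 < Fintype.card ι) :
    ∃ x : ι → K, x ≠ 0 ∧ ∀ j, eval x (f j) = 0 := by
  by_cases halg : IsAlgClosed K
  · refine algClosed_system f d hd hf (lt_of_le_of_lt ?_ hlt)
    rw [Fintype.card_eq_sum_ones]
    exact Finset.sum_le_sum fun j _ => by rw [pow_one]; exact hd j
  · rcases degrees_dichotomy halg with ⟨p, a, hp, ha, h⟩ | ⟨a, ha, hA, h⟩
    · exact strongly_of_prime_pow one_pos hK hp ha (by rwa [pow_one]) f d hd hf hlt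
    · choose b hb1 hb2 hb3 using h
      refine strongly_of_gcd hK halg (T := {q : ℕ // q ∈ a.primeFactors}) (a := a)
        (b := fun q => b q (Nat.prime_of_mem_primeFactors q.2)
          (Nat.dvd_of_mem_primeFactors q.2)) ha
        (fun q => hb1 _ _ _) (fun q hq hqa => ⟨⟨q, Nat.mem_primeFactors.2 ⟨hq, hqa, by omega⟩⟩,
          hb2 _ _ _⟩) (by rwa [pow_one]) (fun q => by rw [pow_one]; exact hb3 _ _ _) f d hd hf hlt

end Pool.Agent.Helper47.Ci
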