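import Pool.Agent.Helper47.Ci.Transfer
import Pool.Agent.Helper47.Ci.Bound

/-!
# The exponent `κ`

For a normic form of degree `e` there is a least real `κ ≤ i` such that anisotropic forms of
degree `e ^ A * M`, with `M` coprime to `e`, have at most `(e ^ A) ^ i * M ^ κ` variables.  By the
transfer lemma this bound is asymptotically attained for every `M`.
-/

set_option autoImplicit false

open MvPolynomial Pool.Agent.H19CI

namespace Pool.Agent.Helper47.Ci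

variable {K : Type*} [Field K]

/-- The anisotropic forms of degree `e ^ A * M`, with `M` coprime to `e`, have at most
`(e ^ A) ^ i * M ^ κ` variables. -/
def Bd (K : Type*) [Field K] (e i : ℕ) (κ : ℝ) : Prop :=
  ∀ A M m : ℕ, 0 < M → Nat.Coprime M e → HasForm K (e ^ A * M) (Fin m) →
    (m : ℝ) ≤ ((e : ℝ) ^ A) ^ i * (M : ℝ) ^ κ

theorem exists_kappa {i : ℕ} (hK : IsC K i) {e : ℕ} (he : 0 < e) :
    ∃ κ : ℝ, 0 ≤ κ ∧ κ ≤ i ∧ Bd K e i κ ∧ ∀ κ', 0 ≤ κ' → κ' < κ → ¬ Bd K e i κ' := by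
  let S : Set ℝ := {κ | 0 ≤ κ ∧ Bd K e i κ}
  have hiS : (i : ℝ) ∈ S := by
    refine ⟨Nat.cast_nonneg i, fun A M m hM _ hm => ?_⟩
    have h1 := hm.card_le hK (Nat.mul_pos (Nat.pow_pos he) hM)
    rw [Fintype.card_fin] at h1
    rw [Real.rpow_natCast, ← mul_pow]
    exact_mod_cast h1
  have hbdd : BddBelow S := ⟨0, fun x hx => hx.1⟩
  have hclosed : IsClosed S := by
    have h1 : S = {κ | 0 ≤ κ} ∩ ⋂ A : ℕ, ⋂ M : ℕ, ⋂ m : ℕ, ⋂ _ : 0 < M, ⋂ _ : Nat.Coprime M e,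
        ⋂ _ : HasForm K (e ^ A * M) (Fin m), {κ : ℝ | (m : ℝ) ≤ ((e : ℝ) ^ A) ^ i * (M : ℝ) ^ κ} := by
      ext κ
      simp only [S, Bd, Set.mem_ofPred_eq, Set.mem_inter_iff, Set.mem_iInter]
    rw [h1]
    refine isClosed_Ici.inter ?_
    refine isClosed_iInter fun A => isClosed_iInter fun M => isClosed_iInter fun m =>
      isClosed_iInter fun hM => isClosed_iInter fun _ => isClosed_iInter fun _ => ?_
    have hM' : (M : ℝ) ≠ 0 := by exact_mod_cast hM.ne'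
    refine isClosed_le continuous_const (continuous_const.mul ?_)
    exact Real.continuous_const_rpow hM'
  have hmem : sInf S ∈ S := hclosed.csInf_mem ⟨_, hiS⟩ hbdd
  refine ⟨sInf S, hmem.1, csInf_le hbdd hiS, hmem.2, fun κ' h0 h1 h2 => ?_⟩
  exact absurd (csInf_le hbdd (show κ' ∈ S from ⟨h0, h2⟩)) (not_le.2 h1)

theorem poly_le_exp (B : ℝ) (hB : 0 ≤ B) (c : ℝ) (hc : 0 ≤ c) (ρ : ℝ) (hρ : 1 < ρ) :
    ∃ C : ℝ, 0 < C ∧ ∀ k : ℕ, (B * (k + 1)) ^ c ≤ C * ρ ^ k := by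
  obtain ⟨c', hc'⟩ := exists_nat_ge c
  have h1 := tendsto_pow_const_div_const_pow_of_one_lt c' hρ
  obtain ⟨C1, hC1⟩ := h1.bddAbove_range
  refine ⟨(max B 1) ^ c' * 2 ^ c' * (max C1 0 + 1), by positivity, fun k => ?_⟩
  have hk : (k : ℝ) ^ c' ≤ C1 * ρ ^ k := by
    have h2 := hC1 ⟨k, rfl⟩
    simp only at h2
    rwa [div_le_iff₀ (by positivity)] at h2
  have hk1 : ((k : ℝ) + 1) ^ c' ≤ 2 ^ c' * ((max C1 0 + 1) * ρ ^ k) := by
    rcases Nat.eq_zero_or_pos k with h | h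
    · subst h
      have : (1 : ℝ) ≤ 2 ^ c' := one_le_pow₀ (by norm_num)
      have h3 : (0 : ℝ) ≤ max C1 0 := le_max_right _ _
      simp only [Nat.cast_zero, zero_add, one_pow, pow_zero, mul_one]
      nlinarith
    · have h2 : (k : ℝ) + 1 ≤ 2 * k := by
        have : (1 : ℝ) ≤ k := by exact_mod_cast h
        linarith
      calc ((k : ℝ) + 1) ^ c' ≤ (2 * k) ^ c' := pow_le_pow_left₀ (by positivity) h2 _
        _ = 2 ^ c' * (k : ℝ) ^ c' := mul_pow _ _ _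
        _ ≤ 2 ^ c' * ((max C1 0 + 1) * ρ ^ k) := by
          refine mul_le_mul_of_nonneg_left (hk.trans ?_) (by positivity)
          refine mul_le_mul_of_nonneg_right ?_ (by positivity)
          linarith [le_max_left C1 0]
  have hB1 : (1 : ℝ) ≤ max B 1 * (k + 1) := by
    have h2 : (1 : ℝ) ≤ max B 1 := le_max_right _ _
    have h3 : (1 : ℝ) ≤ (k : ℝ) + 1 := by
      have : (0 : ℝ) ≤ k := Nat.cast_nonneg k
      linarith
    nlinarith
  calc (B * (k + 1)) ^ c ≤ (max B 1 * (k + 1)) ^ c := by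
        refine Real.rpow_le_rpow (by positivity) ?_ hc
        exact mul_le_mul_of_nonneg_right (le_max_left _ _) (by positivity)
    _ ≤ (max B 1 * (k + 1)) ^ (c' : ℝ) := Real.rpow_le_rpow_of_exponent_le hB1 hc'
    _ = (max B 1) ^ c' * ((k : ℝ) + 1) ^ c' := by rw [Real.rpow_natCast, mul_pow]
    _ ≤ (max B 1) ^ c' * (2 ^ c' * ((max C1 0 + 1) * ρ ^ k)) :=
        mul_le_mul_of_nonneg_left hk1 (by positivity)
    _ = _ := by ring

/-- The bound is asymptotically attained. -/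
theorem lower_bound {i : ℕ} (hi : 0 < i) (hK : IsC K i) {e : ℕ} (he : 2 ≤ e)
    (hE : HasForm K e (Fin (e ^ i))) (κ : ℝ) (hκ0 : 0 ≤ κ) (hκ : κ = 0 ∨ ¬ Bd K e i κ)
    (E : ℕ) (ρ : ℝ) (hρ : 1 < ρ) :
    ∃ C : ℝ, 0 < C ∧ ∀ k N : ℕ, 0 < N → N ≤ E ^ k → ∃ A m : ℕ, 0 < m ∧
      HasForm K (e ^ A * N) (Fin m) ∧ ((e : ℝ) ^ A) ^ i * (N : ℝ) ^ κ ≤ C * ρ ^ k * m := by
  rcases hκ with hκ | hκ
  · subst hκ
    refine ⟨1, one_pos, fun k N hN _ => ⟨0, 1, one_pos, HasForm.one (by positivity), ?_⟩⟩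
    simp only [pow_zero, one_pow, Real.rpow_zero, Nat.cast_one, mul_one, one_mul]
    exact one_le_pow₀ hρ.le
  unfold Bd at hκ
  push Not at hκ
  obtain ⟨α, M, m, hM, hMe, hm, hlt⟩ := hκ
  have hepos : (0 : ℝ) < e := by
    have : 0 < e := by omega
    exact_mod_cast this
  have hMr : (0 : ℝ) < M := by exact_mod_cast hM
  have hM1 : (1 : ℝ) ≤ M := by exact_mod_cast hM
  have hαm : (e ^ α) ^ i ≤ m := by
    have h1 : ((e : ℝ) ^ α) ^ i ≤ m := by
      calc ((e : ℝ) ^ α) ^ i = ((e : ℝ) ^ α) ^ i * 1 := (mul_one _).symm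
        _ ≤ ((e : ℝ) ^ α) ^ i * (M : ℝ) ^ κ := by
          refine mul_le_mul_of_nonneg_left ?_ (by positivity)
          exact Real.one_le_rpow hM1 hκ0
        _ ≤ m := hlt.le
    exact_mod_cast h1
  have hM2 : 1 < M := by
    by_contra h
    have hM1' : M = 1 := by omega
    subst hM1'
    have h1 := hm.card_le hK (by positivity)
    rw [Fintype.card_fin, mul_one] at h1
    simp only [Nat.cast_one, Real.one_rpow, mul_one] at hlt
    have h2 : ((m : ℕ) : ℝ) ≤ ((e : ℝ) ^ α) ^ i := by exact_mod_cast h1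
    linarith
  obtain ⟨C, hC, hCk⟩ := poly_le_exp ((M : ℝ) ^ 2 * (e * M * E + 1)) (by positivity) κ hκ0 ρ hρ
  refine ⟨C, hC, fun k N hN hNE => ?_⟩
  set w := Nat.log M N with hw
  have hw1 : M ^ w ≤ N := Nat.pow_log_le_self M hN.ne'
  have hw2 : N < M ^ (w + 1) := Nat.lt_pow_succ_log_self hM2 N
  have hwk : w ≤ E * k := by
    have h1 : M ^ w ≤ M ^ (E * k) := by
      calc M ^ w ≤ N := hw1
        _ ≤ E ^ k := hNE
        _ ≤ (M ^ E) ^ k := Nat.pow_le_pow_left (Nat.lt_pow_self hM2).le k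
        _ = M ^ (E * k) := by rw [← pow_mul]
    exact (Nat.pow_le_pow_iff_right hM2).1 h1
  set x := e * M * (E * k) with hx
  set h := Nat.log M x + 1 with hh
  have hxh : x < M ^ h := Nat.lt_pow_succ_log_self hM2 x
  have hh2 : M ^ (h + 1) ≤ M ^ 2 * (x + 1) := by
    have h1 : M ^ Nat.log M x ≤ x + 1 := by
      rcases Nat.eq_zero_or_pos x with h0 | h0
      · rw [h0]; simp
      · exact (Nat.pow_log_le_self M h0.ne').trans (Nat.le_succ _)
    calc M ^ (h + 1) = M ^ 2 * M ^ Nat.log M x := by rw [hh, ← pow_add]; congr 1; ring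
      _ ≤ _ := Nat.mul_le_mul_left _ h1
  have hcond : (w - h) * e * M ^ (w - h + 1) < N := by
    rcases Nat.lt_or_ge h w with hlt' | hge
    · have h1 : (w - h) * e * M ≤ x := by
        rw [hx]
        calc (w - h) * e * M ≤ (E * k) * e * M :=
              Nat.mul_le_mul_right _ (Nat.mul_le_mul_right _ (by omega))
          _ = _ := by ring
      calc (w - h) * e * M ^ (w - h + 1) = ((w - h) * e * M) * M ^ (w - h) := by
            rw [pow_succ]; ring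
        _ < M ^ h * M ^ (w - h) :=
            Nat.mul_lt_mul_of_pos_right (lt_of_le_of_lt h1 hxh) (Nat.pow_pos hM)
        _ = M ^ w := by rw [← pow_add]; congr 1; omega
        _ ≤ N := hw1
    · have : w - h = 0 := by omega
      rw [this]
      simpa using hN
  have hform := transfer hi hK he hE hM hMe hm hαm (w - h) N hcond
  have hmpos : 0 < m := lt_of_lt_of_le (Nat.pow_pos (Nat.pow_pos (by omega))) hαm
  refine ⟨(w - h) * α, m ^ (w - h), Nat.pow_pos hmpos, hform, ?_⟩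
  have h1 : (N : ℝ) ^ κ ≤ ((M : ℝ) ^ κ) ^ (w - h) * (C * ρ ^ k) := by
    have h2 : (N : ℝ) ≤ (M : ℝ) ^ (w - h) * (M : ℝ) ^ (h + 1) := by
      have h3 : N ≤ M ^ (w - h) * M ^ (h + 1) := by
        rw [← pow_add]
        exact hw2.le.trans (Nat.pow_le_pow_right hM (by omega))
      exact_mod_cast h3
    have h3 : (M : ℝ) ^ (h + 1) ≤ (M : ℝ) ^ 2 * (e * M * E + 1) * (k + 1) := by
      have h4 : ((M ^ (h + 1) : ℕ) : ℝ) ≤ ((M ^ 2 * (x + 1) : ℕ) : ℝ) := by exact_mod_cast hh2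
      push_cast at h4
      refine h4.trans ?_
      have h5 : (x : ℝ) = e * M * E * k := by
        rw [hx]; push_cast; ring
      rw [h5, mul_assoc ((M : ℝ) ^ 2)]
      refine mul_le_mul_of_nonneg_left ?_ (by positivity)
      have h6 : (0 : ℝ) ≤ e * M * E := by positivity
      have h7 : (0 : ℝ) ≤ k := Nat.cast_nonneg k
      nlinarith
    calc (N : ℝ) ^ κ ≤ ((M : ℝ) ^ (w - h) * (M : ℝ) ^ (h + 1)) ^ κ :=
          Real.rpow_le_rpow (by positivity) h2 hκ0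
      _ = ((M : ℝ) ^ (w - h)) ^ κ * ((M : ℝ) ^ (h + 1)) ^ κ :=
          Real.mul_rpow (by positivity) (by positivity)
      _ = ((M : ℝ) ^ κ) ^ (w - h) * ((M : ℝ) ^ (h + 1)) ^ κ := by
          congr 1
          rw [← Real.rpow_natCast, ← Real.rpow_mul hMr.le, mul_comm, Real.rpow_mul hMr.le,
            Real.rpow_natCast]
      _ ≤ ((M : ℝ) ^ κ) ^ (w - h) * (C * ρ ^ k) := by
          refine mul_le_mul_of_nonneg_left ?_ (by positivity)
          refine le_trans ?_ (hCk k)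
          exact Real.rpow_le_rpow (by positivity) h3 hκ0
  have h2 : (((e : ℝ) ^ α) ^ i * (M : ℝ) ^ κ) ^ (w - h) ≤ (m : ℝ) ^ (w - h) :=
    pow_le_pow_left₀ (by positivity) hlt.le _
  have h3 : ((e : ℝ) ^ ((w - h) * α)) ^ i = (((e : ℝ) ^ α) ^ i) ^ (w - h) := by
    rw [← pow_mul, ← pow_mul, ← pow_mul]
    congr 1
    ring
  rw [h3]
  calc (((e : ℝ) ^ α) ^ i) ^ (w - h) * (N : ℝ) ^ κ ≤
        (((e : ℝ) ^ α) ^ i) ^ (w - h) * (((M : ℝ) ^ κ) ^ (w - h) * (C * ρ ^ k)) :=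
        mul_le_mul_of_nonneg_left h1 (by positivity)
    _ = C * ρ ^ k * (((e : ℝ) ^ α) ^ i * (M : ℝ) ^ κ) ^ (w - h) := by rw [mul_pow]; ring
    _ ≤ C * ρ ^ k * (m : ℝ) ^ (w - h) := mul_le_mul_of_nonneg_left h2 (by positivity)
    _ = _ := by push_cast; ring

end Pool.Agent.Helper47.Ci
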