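import Pool.Graph.R_pool_sql_team_seeded_620a6dc7.H19CI.E

/-!
# Norm forms

A finite extension of degree `n` gives an anisotropic form of degree `n` in `n` variables.
-/

set_option autoImplicit false

open MvPolynomial Pool.Agent.H19CI

namespace Pool.Agent.Helper47.Ci

variable {K : Type*} [Field K]

theorem hasForm_norm (L : Type*) [Field L] [Algebra K L] [FiniteDimensional K L] :
    HasForm K (Module.finrank K L) (Fin (Module.finrank K L)) := by
  classical
  set n := Module.finrank K L with hn
  let b : Module.Basis (Fin n) K L := Module.finBasis K L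
  let M : Matrix (Fin n) (Fin n) (MvPolynomial (Fin n) K) :=
    ∑ j, (X j : MvPolynomial (Fin n) K) • (Algebra.leftMulMatrix b (b j)).map C
  have hM : ∀ s t, (M s t).IsHomogeneous 1 := by
    intro s t
    have h1 : M s t = ∑ j, (X j : MvPolynomial (Fin n) K) *
        C (Algebra.leftMulMatrix b (b j) s t) := by
      simp [M, Matrix.sum_apply, Matrix.smul_apply, Matrix.map_apply]
    rw [h1]
    refine IsHomogeneous.sum _ _ _ fun j _ => ?_
    have := (isHomogeneous_X K j).mul (isHomogeneous_C (Fin n) (Algebra.leftMulMatrix b (b j) s t))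
    simpa using this
  refine ⟨M.det, ?_, fun x hx => ?_⟩
  · rw [Matrix.det_apply]
    refine IsHomogeneous.sum _ _ _ fun σ _ => ?_
    have h1 : (∏ s, M (σ s) s).IsHomogeneous n := by
      have := IsHomogeneous.prod Finset.univ (fun s => M (σ s) s) (fun _ => 1)
        fun s _ => hM (σ s) s
      simpa using this
    rw [Units.smul_def, zsmul_eq_mul]
    have h2 : ((Equiv.Perm.sign σ : ℤ) : MvPolynomial (Fin n) K) =
        C ((Equiv.Perm.sign σ : ℤ) : K) := by simp
    rw [h2]
    have h3 := (isHomogeneous_C (Fin n) ((Equiv.Perm.sign σ : ℤ) : K)).mul h1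
    rwa [zero_add] at h3
  · have h1 : eval x M.det = Algebra.norm K (∑ j, x j • b j) := by
      rw [RingHom.map_det, Algebra.norm_eq_matrix_det b]
      congr 1
      ext s t
      simp [M, Matrix.sum_apply, Matrix.smul_apply, Matrix.map_apply, map_sum]
    rw [h1, Algebra.norm_eq_zero_iff] at hx
    have h2 : ∀ j, x j = 0 := by
      intro j
      have h3 := congrArg (fun z => b.repr z j) hx
      simpa [map_sum, Finsupp.single_apply] using h3
    funext j
    exact h2 j

end Pool.Agent.Helper47.Ci
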