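import Pool.Agent.Helper47.Ci.Kappa

/-!
# One normic form of prime power degree
-/

set_option autoImplicit false

open MvPolynomial Pool.Agent.H19CI

namespace Pool.Agent.Helper47.Ci

variable {K : Type*} [Field K]

/-- forms of degree `p ^ c`, with a bounded loss -/
theorem hasForm_prime_pow {p a i : ℕ} (hp : 0 < p) (ha : 0 < a)
    (hE : HasForm K (p ^ a) (Fin ((p ^ a) ^ i))) (c : ℕ) :
    ∃ m : ℕ, 0 < m ∧ HasForm K (p ^ c) (Fin m) ∧ (p ^ c) ^ i ≤ (p ^ a) ^ i * m := by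
  refine ⟨((p ^ a) ^ (c / a)) ^ i, by positivity, ?_, ?_⟩
  · have h1 := (hasForm_pow_normic hE (c / a)).compFin
      (HasForm.one (K := K) (Nat.pow_pos (n := c % a) hp))
    rw [← pow_mul, ← pow_add, Nat.div_add_mod, mul_one] at h1
    rwa [pow_mul] at h1
  · rw [← mul_pow]
    refine Nat.pow_le_pow_left ?_ i
    rw [← pow_mul, ← pow_add]
    refine Nat.pow_le_pow_right hp ?_
    have := Nat.div_add_mod c a
    have h2 := Nat.mod_lt c ha
    omega

theorem growth_of_Bd {i : ℕ} (hi : 0 < i) {e : ℕ} (he : 2 ≤ e)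
    (hE : HasForm K e (Fin (e ^ i))) {κ : ℝ} (hκ : Bd K e i κ) (A M : ℕ) (hM : 0 < M)
    (hMe : Nat.Coprime M e) : Growth K (e ^ A * M) (((e : ℝ) ^ A) ^ i * (M : ℝ) ^ κ) := by
  intro u
  refine ⟨e ^ u, Nat.pow_pos (by omega), ?_, ((e : ℝ) ^ u) ^ i, fun s m hm => ?_⟩
  · refine (hasForm_pow_normic hE u).mono ?_
    calc u ≤ e ^ u := (Nat.lt_pow_self (by omega)).le
      _ = (e ^ u) ^ 1 := (pow_one _).symm
      _ ≤ (e ^ u) ^ i := Nat.pow_le_pow_right (Nat.pow_pos (by omega)) hi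
  · have h1 : e ^ u * (e ^ A * M) ^ s = e ^ (u + A * s) * M ^ s := by
      rw [mul_pow, ← pow_mul, pow_add]; ring
    rw [h1] at hm
    have h2 := hκ _ _ _ (Nat.pow_pos hM) (Nat.Coprime.pow_left s hMe) hm
    refine h2.trans (le_of_eq ?_)
    have hM0 : (0 : ℝ) ≤ M := Nat.cast_nonneg M
    push_cast
    rw [← Real.rpow_natCast (M : ℝ) s, ← Real.rpow_mul hM0, mul_comm (s : ℝ) κ, Real.rpow_mul hM0,
      Real.rpow_natCast, mul_pow, pow_add, mul_pow, ← mul_assoc]
    congr 2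
    rw [← pow_mul, ← pow_mul, ← pow_mul]
    congr 1
    ring

/-- a real number close below `κ` -/
theorem exists_close {κ : ℝ} (hκ0 : 0 ≤ κ) {e i : ℕ} (hκ : ∀ κ', 0 ≤ κ' → κ' < κ → ¬ Bd K e i κ')
    (E : ℕ) (hE : 0 < E) (c : ℝ) (hc : 1 < c) :
    ∃ κ' : ℝ, 0 ≤ κ' ∧ κ' ≤ κ ∧ (κ' = 0 ∨ ¬ Bd K e i κ') ∧ (E : ℝ) ^ (κ - κ') < c := by
  rcases hκ0.eq_or_lt with h | h
  · refine ⟨0, le_rfl, hκ0, Or.inl rfl, ?_⟩
    rw [← h, sub_zero, Real.rpow_zero]
    exact hc
  · have hE' : (E : ℝ) ≠ 0 := by exact_mod_cast hE.ne'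
    have hcont : Continuous fun x : ℝ => (E : ℝ) ^ (κ - x) :=
      (Real.continuous_const_rpow hE').comp (continuous_const.sub continuous_id)
    have h1 : ∀ᶠ x in nhds κ, (E : ℝ) ^ (κ - x) < c := by
      refine hcont.continuousAt.eventually_lt continuousAt_const ?_
      simp only [sub_self, Real.rpow_zero]
      exact hc
    have h2 : ∀ᶠ x in nhdsWithin κ (Set.Iio κ), (E : ℝ) ^ (κ - x) < c ∧ 0 < x ∧ x < κ := by
      refine (h1.filter_mono nhdsWithin_le_nhds).and ?_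
      refine Filter.Eventually.and ?_ self_mem_nhdsWithin
      exact (lt_mem_nhds h).filter_mono nhdsWithin_le_nhds
    obtain ⟨x, hx1, hx2, hx3⟩ := h2.exists
    exact ⟨x, hx2.le, hx3.le, Or.inr (hκ x hx2.le hx3), hx1⟩

theorem strongly_of_prime_pow {i : ℕ} (hi : 0 < i) (hK : IsC K i) {p a : ℕ} (hp : p.Prime)
    (ha : 0 < a) (hE : HasForm K (p ^ a) (Fin ((p ^ a) ^ i))) {J ι : Type} [Fintype J]
    [Fintype ι] (f : J → MvPolynomial ι K) (d : J → ℕ) (hd : ∀ j, 0 < d j)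
    (hf : ∀ j, (f j).IsHomogeneous (d j)) (hlt : ∑ j, d j ^ i < Fintype.card ι) :
    ∃ x : ι → K, x ≠ 0 ∧ ∀ j, eval x (f j) = 0 := by
  classical
  by_contra hcon
  push Not at hcon
  have hani : Aniso f := by
    intro x hx
    by_contra h
    obtain ⟨t, ht⟩ := hcon x h
    exact ht (hx t)
  set e := p ^ a with hedef
  have hp0 : 0 < p := hp.pos
  have he : 2 ≤ e := hp.two_le.trans (Nat.le_self_pow ha.ne' p)
  have he0 : 0 < e := by omega
  -- decomposition of the degrees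
  have hdec : ∀ j, ∃ b d' : ℕ, 0 < d' ∧ Nat.Coprime d' p ∧ d j = p ^ b * d' := by
    intro j
    obtain ⟨b, d', h1, h2⟩ := Nat.exists_eq_pow_mul_and_not_dvd (hd j).ne' p hp.ne_one
    refine ⟨b, d', Nat.pos_of_ne_zero fun h => ?_, ?_, h2⟩
    · rw [h, mul_zero] at h2
      exact (hd j).ne' h2
    · exact ((Nat.Prime.coprime_iff_not_dvd hp).2 h1).symm
  choose b d' hd'pos hd'cop hdj using hdec
  obtain ⟨κ, hκ0, hκi, hκB, hκmin⟩ := exists_kappa (K := K) hK he0
  set E := ∏ j, d' j with hEdef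
  have hEpos : 0 < E := Finset.prod_pos fun j _ => hd'pos j
  have hEcop : Nat.Coprime E p := Nat.Coprime.prod_left fun j _ => hd'cop j
  have hEr : (1 : ℝ) ≤ E := by exact_mod_cast hEpos
  set c : J → ℝ := fun j => ((p : ℝ) ^ b j) ^ i * (d' j : ℝ) ^ κ with hcdef
  set B : ℝ := ∑ j, c j with hBdef
  have hd'r : ∀ j, (1 : ℝ) ≤ d' j := fun j => by exact_mod_cast hd'pos j
  have hc0 : ∀ j, 0 ≤ c j := fun j => by positivity
  have hB0 : 0 ≤ B := Finset.sum_nonneg fun j _ => hc0 j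
  have hBle : B ≤ ((∑ j, d j ^ i : ℕ) : ℝ) := by
    rw [Nat.cast_sum]
    refine Finset.sum_le_sum fun j _ => ?_
    rw [hdj j]
    push_cast
    rw [mul_pow]
    refine mul_le_mul_of_nonneg_left ?_ (by positivity)
    calc (d' j : ℝ) ^ κ ≤ (d' j : ℝ) ^ (i : ℝ) :=
          Real.rpow_le_rpow_of_exponent_le (hd'r j) hκi
      _ = _ := Real.rpow_natCast _ _
  set n : ℝ := (Fintype.card ι : ℝ) with hn
  have hBn : B < n := lt_of_le_of_lt hBle (by rw [hn]; exact_mod_cast hlt)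
  have hnpos : 0 < n := lt_of_le_of_lt hB0 hBn
  -- room
  obtain ⟨ρ, hρ1, hρB⟩ : ∃ ρ : ℝ, 1 < ρ ∧ ρ * ρ * B < n := by
    have hcont : Continuous fun x : ℝ => x * x * B := by fun_prop
    have h1 : ∀ᶠ x in nhds (1 : ℝ), x * x * B < n := by
      refine hcont.continuousAt.eventually_lt continuousAt_const ?_
      simpa using hBn
    have h2 : ∀ᶠ x in nhdsWithin (1 : ℝ) (Set.Ioi 1), x * x * B < n ∧ 1 < x :=
      (h1.filter_mono nhdsWithin_le_nhds).and self_mem_nhdsWithin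
    obtain ⟨x, hx1, hx2⟩ := h2.exists
    exact ⟨x, hx2, hx1⟩
  obtain ⟨κ', hκ'0, hκ'κ, hκ'B, hκ'E⟩ := exists_close (K := K) hκ0 hκmin E hEpos ρ hρ1
  obtain ⟨C, hC, hlow⟩ := lower_bound hi hK he hE κ' hκ'0 hκ'B E ρ hρ1
  have hρ0 : 0 < ρ := by linarith
  have hp0r : (0 : ℝ) < p := by exact_mod_cast hp0
  have he0r : (0 : ℝ) < e := by exact_mod_cast he0
  -- the key inequality
  have key : ∀ k : ℕ, n ^ k ≤ (e : ℝ) ^ i * C * (ρ * ρ * B) ^ k := by
    intro k
    obtain ⟨g, hg1, hg2⟩ := syspow f d hf hani k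
    -- the complementary degrees
    let N : (Fin k → J) → ℕ := fun l => ∏ t, (E / d' (l t))
    have hEd : ∀ j, E / d' j * d' j = E := fun j =>
      Nat.div_mul_cancel (Finset.dvd_prod_of_mem _ (Finset.mem_univ j))
    have hEdpos : ∀ j, 0 < E / d' j := fun j =>
      Nat.pos_of_ne_zero fun h => hEpos.ne' (by rw [← hEd j, h, zero_mul])
    have hNpos : ∀ l, 0 < N l := fun l => Finset.prod_pos fun t _ => hEdpos _
    have hNmul : ∀ l, N l * ∏ t, d' (l t) = E ^ k := fun l => by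
      show (∏ t, (E / d' (l t))) * ∏ t, d' (l t) = E ^ k
      rw [← Finset.prod_mul_distrib, Finset.prod_congr rfl fun t _ => hEd (l t)]
      simp
    have hNle : ∀ l, N l ≤ E ^ k := fun l => by
      rw [← hNmul l]
      exact Nat.le_mul_of_pos_right _ (Finset.prod_pos fun t _ => hd'pos _)
    choose A m hm hAm hle using fun l => hlow k (N l) (hNpos l) (hNle l)
    let bs : (Fin k → J) → ℕ := fun l => ∑ t, b (l t)
    let A0 : ℕ := ∑ l, (A l + bs l)
    have hA0 : ∀ l, a * A l + bs l ≤ a * A0 := by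
      intro l
      have h1 : A l + bs l ≤ A0 :=
        Finset.single_le_sum (f := fun l => A l + bs l) (fun _ _ => Nat.zero_le _)
          (Finset.mem_univ l)
      have h2 : a * (A l + bs l) ≤ a * A0 := Nat.mul_le_mul_left _ h1
      have h3 : bs l ≤ a * bs l := Nat.le_mul_of_pos_left _ ha
      rw [Nat.mul_add] at h2
      omega
    let cc : (Fin k → J) → ℕ := fun l => a * A0 - (a * A l + bs l)
    have hcc : ∀ l, cc l + (a * A l + bs l) = a * A0 := fun l => Nat.sub_add_cancel (hA0 l)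
    choose q hq hqF hqle using fun l => hasForm_prime_pow (K := K) hp0 ha hE (cc l)
    have hdprod : ∀ l : Fin k → J, ∏ t, d (l t) = p ^ bs l * ∏ t, d' (l t) := by
      intro l
      rw [Finset.prod_congr rfl fun t _ => hdj (l t), Finset.prod_mul_distrib,
        Finset.prod_pow_eq_pow_sum]
    have hmain := system_real g (fun l => ∏ t, d (l t)) hg1 hg2 (e ^ A0 * E ^ k)
      (fun l => p ^ cc l * (e ^ A l * N l)) (fun l => q l * m l)
      (fun l => by
        rw [hdprod l, ← hNmul l, hedef, ← pow_mul, ← pow_mul, ← hcc l, pow_add, pow_add]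
        ring)
      (fun l => Nat.mul_pos (hq l) (hm l)) (fun l => (hqF l).compFin (hAm l))
      (((e : ℝ) ^ A0) ^ i * ((E ^ k : ℕ) : ℝ) ^ κ)
      (by
        have h1 : (1 : ℝ) ≤ ((e : ℝ) ^ A0) ^ i :=
          one_le_pow₀ (one_le_pow₀ (by exact_mod_cast (show 1 ≤ e by omega)))
        have h2 : (1 : ℝ) ≤ ((E ^ k : ℕ) : ℝ) ^ κ := by
          refine Real.one_le_rpow ?_ hκ0
          push_cast
          exact one_le_pow₀ hEr
        nlinarith)
      (growth_of_Bd hi he hE hκB A0 (E ^ k) (Nat.pow_pos hEpos)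
        (Nat.Coprime.pow_left _ (Nat.Coprime.pow_right _ hEcop)))
    rw [Fintype.card_fun, Fintype.card_fin] at hmain
    push_cast at hmain
    rw [← hn] at hmain
    refine hmain.trans ?_
    have hterm : ∀ l : Fin k → J, ((e : ℝ) ^ A0) ^ i * ((E : ℝ) ^ k) ^ κ / ((q l : ℝ) * m l) ≤
        (e : ℝ) ^ i * C * (ρ * ρ) ^ k * ∏ t, c (l t) := by
      intro l
      have hqr : (0 : ℝ) < q l := by exact_mod_cast hq l
      have hmr : (0 : ℝ) < m l := by exact_mod_cast hm l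
      rw [div_le_iff₀ (by positivity)]
      -- the `p`-part
      have h1 : ((e : ℝ) ^ A0) ^ i ≤
          (e : ℝ) ^ i * q l * (((e : ℝ) ^ A l) ^ i * ((p : ℝ) ^ bs l) ^ i) := by
        have h2 : (((p : ℝ) ^ cc l)) ^ i ≤ (e : ℝ) ^ i * q l := by exact_mod_cast hqle l
        have h3 : ((e : ℝ) ^ A0) ^ i =
            ((p : ℝ) ^ cc l) ^ i * (((e : ℝ) ^ A l) ^ i * ((p : ℝ) ^ bs l) ^ i) := by
          rw [← mul_pow, ← mul_pow]
          congr 1
          rw [hedef]
          push_cast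
          rw [← pow_mul, ← pow_mul, ← hcc l, pow_add, pow_add]
        rw [h3]
        exact mul_le_mul_of_nonneg_right h2 (by positivity)
      -- the prime-to-`p` part
      have hprod : (N l : ℝ) ^ κ' * (∏ t, (d' (l t) : ℝ)) ^ κ' = ((E : ℝ) ^ k) ^ κ' := by
        rw [← Real.mul_rpow (by positivity) (by positivity)]
        congr 1
        have := hNmul l
        exact_mod_cast this
      have h4 : ((E : ℝ) ^ k) ^ κ ≤ ρ ^ k * ((E : ℝ) ^ k) ^ κ' := by
        have h5 : ((E : ℝ) ^ k) ^ κ = ((E : ℝ) ^ (κ - κ')) ^ k * ((E : ℝ) ^ k) ^ κ' := by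
          have hE0 : (0 : ℝ) < E := by linarith
          rw [← Real.rpow_natCast (E : ℝ) k, ← Real.rpow_mul hE0.le, ← Real.rpow_mul hE0.le,
            ← Real.rpow_natCast ((E : ℝ) ^ (κ - κ')) k, ← Real.rpow_mul hE0.le,
            ← Real.rpow_add hE0]
          congr 1
          ring
        rw [h5]
        refine mul_le_mul_of_nonneg_right ?_ (by positivity)
        exact pow_le_pow_left₀ (by positivity) hκ'E.le k
      have h6 : (∏ t, (d' (l t) : ℝ)) ^ κ' ≤ ∏ t, (d' (l t) : ℝ) ^ κ := by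
        rw [← Real.finsetProd_rpow _ _ fun t _ => by positivity]
        refine Finset.prod_le_prod (fun t _ => by positivity) fun t _ => ?_
        exact Real.rpow_le_rpow_of_exponent_le (hd'r _) hκ'κ
      have h7 : ∏ t, c (l t) = ((p : ℝ) ^ bs l) ^ i * ∏ t, (d' (l t) : ℝ) ^ κ := by
        rw [hcdef]
        simp only
        rw [Finset.prod_mul_distrib]
        congr 1
        rw [Finset.prod_pow, Finset.prod_pow_eq_pow_sum]
      rw [h7]
      have hlel := hle l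
      calc ((e : ℝ) ^ A0) ^ i * ((E : ℝ) ^ k) ^ κ
          ≤ ((e : ℝ) ^ i * q l * (((e : ℝ) ^ A l) ^ i * ((p : ℝ) ^ bs l) ^ i)) *
              (ρ ^ k * ((E : ℝ) ^ k) ^ κ') :=
            mul_le_mul h1 h4 (by positivity) (by positivity)
        _ = (e : ℝ) ^ i * q l * ((p : ℝ) ^ bs l) ^ i * ρ ^ k *
              ((((e : ℝ) ^ A l) ^ i * (N l : ℝ) ^ κ') * (∏ t, (d' (l t) : ℝ)) ^ κ') := by
            rw [← hprod]
            ring
        _ ≤ (e : ℝ) ^ i * q l * ((p : ℝ) ^ bs l) ^ i * ρ ^ k *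
              ((C * ρ ^ k * m l) * ∏ t, (d' (l t) : ℝ) ^ κ) := by
            refine mul_le_mul_of_nonneg_left ?_ (by positivity)
            exact mul_le_mul hlel h6 (by positivity) (by positivity)
        _ = _ := by ring
    refine (Finset.sum_le_sum fun l _ => hterm l).trans (le_of_eq ?_)
    rw [← Finset.mul_sum, mul_pow (ρ * ρ) B k, hBdef, Fintype.sum_pow]
    ring
  -- the contradiction
  rcases hB0.eq_or_lt with h0 | hpos
  · have h1 := key 1
    rw [← h0] at h1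
    simp only [pow_one, mul_zero] at h1
    linarith
  · have hx : 0 < ρ * ρ * B := by positivity
    obtain ⟨k, hk⟩ := pow_unbounded_of_one_lt ((e : ℝ) ^ i * C) ((one_lt_div hx).2 hρB)
    have h1 := key k
    rw [div_pow, lt_div_iff₀ (pow_pos hx k)] at hk
    linarith

end Pool.Agent.Helper47.Ci
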