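import Pool.Graph.R_pool_sql_team_seeded_620a6dc7.H19CI.E

/-!
# The transfer lemma

Let `e ≥ 2` be the degree of a normic form of order `i` over the `C_i` field `K`, and let `M` be
coprime to `e`.  If `K` has an anisotropic form of degree `e ^ α * M` in `m` variables, then it has
an anisotropic form of degree `e ^ (k * α) * N` in `m ^ k` variables, for every `k` and every
`N > k * e * M ^ (k + 1)`.  So the number of variables of anisotropic forms of degree `e ^ A * N`,
suitably normalised, depends asymptotically only on the size of `N`.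
-/

set_option autoImplicit false

open MvPolynomial Pool.Agent.H19CI

namespace Pool.Agent.Helper47.Ci

variable {K : Type*} [Field K]

/-- the power form -/
theorem hasForm_pow_normic {e i : ℕ} (hE : HasForm K e (Fin (e ^ i))) (c : ℕ) :
    HasForm K (e ^ c) (Fin ((e ^ c) ^ i)) := by
  have h := hE.pow c
  rwa [← pow_mul, mul_comm i c, pow_mul] at h

/-- solving a congruence -/
theorem exists_digit (q M N : ℕ) (hq : 0 < q) (hM : Nat.Coprime M q) :
    ∃ v < q, ∃ N' : ℤ, (N : ℤ) = N' * q + v * M := by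
  obtain ⟨w, hw⟩ : ∃ w : ℕ, M * w ≡ 1 [MOD q] := by
    rcases Nat.lt_or_ge 1 q with h | h
    · obtain ⟨w, hw⟩ := Nat.exists_mul_mod_eq_one_of_coprime hM h
      refine ⟨w, ?_⟩
      rw [Nat.ModEq, hw.2, Nat.mod_eq_of_lt h]
    · have : q = 1 := by omega
      subst this
      exact ⟨0, Nat.modEq_one⟩
  refine ⟨(N * w) % q, Nat.mod_lt _ hq, ?_⟩
  have h1 : (((N * w) % q : ℕ) : ℤ) * M ≡ N [ZMOD q] := by
    have h2 : (N * w) % q * M ≡ N [MOD q] := by
      calc (N * w) % q * M ≡ (N * w) * M [MOD q] := (Nat.mod_modEq _ _).mul_right _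
        _ = N * (M * w) := by ring
        _ ≡ N * 1 [MOD q] := hw.mul_left _
        _ = N := mul_one _
    have := (Int.natCast_modEq_iff).2 h2
    push_cast at this ⊢
    exact this
  obtain ⟨N', hN'⟩ := h1.dvd
  refine ⟨N', ?_⟩
  linarith [mul_comm (q : ℤ) N']

/-- The transfer lemma. -/
theorem transfer {i : ℕ} (hi : 0 < i) (hK : IsC K i) {e : ℕ} (he : 2 ≤ e)
    (hE : HasForm K e (Fin (e ^ i))) {M α m : ℕ} (hM : 0 < M) (hMe : Nat.Coprime M e)
    (hm : HasForm K (e ^ α * M) (Fin m)) (hαm : (e ^ α) ^ i ≤ m) (k N : ℕ)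
    (hN : k * e * M ^ (k + 1) < N) :
    HasForm K (e ^ (k * α) * N) (Fin (m ^ k)) := by
  classical
  have hmle : m ≤ (e ^ α * M) ^ i := by
    have := hm.card_le hK (Nat.mul_pos (Nat.pow_pos (by omega)) hM)
    rwa [Fintype.card_fin] at this
  have hmpos : 0 < m := lt_of_lt_of_le (Nat.pow_pos (Nat.pow_pos (by omega))) hαm
  -- the exponents
  have hex : ∀ j : ℕ, ∃ c : ℕ, m ^ j ≤ (e ^ c) ^ i := by
    intro j
    refine ⟨m ^ j, ?_⟩
    calc m ^ j ≤ e ^ (m ^ j) := (Nat.lt_pow_self (by omega)).le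
      _ = (e ^ (m ^ j)) ^ 1 := (pow_one _).symm
      _ ≤ (e ^ (m ^ j)) ^ i := Nat.pow_le_pow_right (Nat.pow_pos (by omega)) hi
  let c : ℕ → ℕ := fun j => Nat.find (hex j)
  have hc : ∀ j, m ^ j ≤ (e ^ c j) ^ i := fun j => Nat.find_spec (hex j)
  have hc0 : c 0 = 0 := by
    have : c 0 ≤ 0 := Nat.find_min' (hex 0) (by simp)
    omega
  have hcle : ∀ j, e ^ c j ≤ e * (e ^ α * M) ^ j := by
    intro j
    rcases Nat.eq_zero_or_pos (c j) with h | h
    · rw [h, pow_zero]
      exact Nat.one_le_iff_ne_zero.2 (Nat.mul_ne_zero (by omega)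
        (pow_ne_zero _ (Nat.mul_ne_zero (pow_ne_zero _ (by omega)) hM.ne')))
    · have h1 : ¬ m ^ j ≤ (e ^ (c j - 1)) ^ i := Nat.find_min (hex j) (show c j - 1 < c j by omega)
      push Not at h1
      have h2 : (e ^ (c j - 1)) ^ i < ((e ^ α * M) ^ j) ^ i := by
        calc (e ^ (c j - 1)) ^ i < m ^ j := h1
          _ ≤ ((e ^ α * M) ^ i) ^ j := Nat.pow_le_pow_left hmle j
          _ = ((e ^ α * M) ^ j) ^ i := by rw [← pow_mul, ← pow_mul, mul_comm i j]
      have h3 : e ^ (c j - 1) < (e ^ α * M) ^ j := lt_of_pow_lt_pow_left₀ i (Nat.zero_le _) h2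
      have h4 : e ^ c j = e * e ^ (c j - 1) := by
        rw [← pow_succ']
        congr 1
        omega
      rw [h4]
      exact Nat.mul_le_mul_left _ h3.le
  have hcs : ∀ j, c j + α ≤ c (j + 1) := by
    intro j
    have h1 : (e ^ α) ^ i ≤ (e ^ c (j + 1)) ^ i := by
      calc (e ^ α) ^ i ≤ m := hαm
        _ = m ^ 1 := (pow_one _).symm
        _ ≤ m ^ (j + 1) := Nat.pow_le_pow_right hmpos (by omega)
        _ ≤ _ := hc (j + 1)
    have h2 : e ^ α ≤ e ^ c (j + 1) := le_of_pow_le_pow_left₀ hi.ne' (Nat.zero_le _) h1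
    have h3 : α ≤ c (j + 1) := (Nat.pow_le_pow_iff_right (by omega)).1 h2
    have h4 : m ^ j ≤ (e ^ (c (j + 1) - α)) ^ i := by
      have h5 : m ^ j * (e ^ α) ^ i ≤ (e ^ (c (j + 1) - α)) ^ i * (e ^ α) ^ i := by
        calc m ^ j * (e ^ α) ^ i ≤ m ^ j * m := Nat.mul_le_mul_left _ hαm
          _ = m ^ (j + 1) := (pow_succ _ _).symm
          _ ≤ (e ^ c (j + 1)) ^ i := hc (j + 1)
          _ = (e ^ (c (j + 1) - α)) ^ i * (e ^ α) ^ i := by
            rw [← mul_pow, ← pow_add]
            congr 2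
            omega
      exact Nat.le_of_mul_le_mul_right h5 (Nat.pow_pos (Nat.pow_pos (by omega)))
    have h5 : c j ≤ c (j + 1) - α := Nat.find_min' (hex j) h4
    omega
  -- the terms
  have hterm : ∀ j ≤ k, ∀ v : ℕ, 0 < v →
      HasForm K (v * (e ^ ((k - j) * α + c j) * M ^ (k - j))) (Fin (m ^ k)) := by
    intro j hj v hv
    refine HasForm.mul_left ?_ v hv
    have h1 := (hm.pow (k - j)).compFin (hasForm_pow_normic hE (c j))
    have h2 : (e ^ α * M) ^ (k - j) * e ^ c j = e ^ ((k - j) * α + c j) * M ^ (k - j) := by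
      rw [mul_pow, ← pow_mul, mul_comm α, pow_add]
      ring
    rw [h2] at h1
    refine h1.mono ?_
    calc m ^ k = m ^ (k - j) * m ^ j := by rw [← pow_add]; congr 1; omega
      _ ≤ m ^ (k - j) * (e ^ c j) ^ i := Nat.mul_le_mul_left _ (hc j)
  -- the induction
  have key : ∀ s ≤ k, ∀ R : ℕ, 0 < R → e ^ (s * α + c (k - s)) ∣ R →
      s * (e * e ^ (k * α) * M ^ (k + 1)) < R → HasForm K R (Fin (m ^ k)) := by
    intro s
    induction s with
    | zero =>
      intro _ R hR hdvd _
      obtain ⟨v, rfl⟩ := hdvd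
      rw [Nat.zero_mul, Nat.zero_add, Nat.sub_zero] at *
      have hv : 0 < v := Nat.pos_of_ne_zero fun h => by
        rw [h, mul_zero] at hR
        exact lt_irrefl _ hR
      have h1 := hterm k le_rfl v hv
      rw [Nat.sub_self, Nat.zero_mul, Nat.zero_add, pow_zero, mul_one] at h1
      rwa [mul_comm]
    | succ s ih =>
      intro hs R hR hdvd hlt
      set j := k - (s + 1) with hj
      have hjs : k - s = j + 1 := by omega
      have hkj : k - j = s + 1 := by omega
      obtain ⟨R1, rfl⟩ := hdvd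
      set w := (s + 1) * α + c j with hw
      have hw' : w ≤ s * α + c (k - s) := by
        rw [hjs, hw]
        have := hcs j
        have h2 : (s + 1) * α = s * α + α := by ring
        omega
      obtain ⟨t, ht⟩ := Nat.exists_eq_add_of_le hw'
      have hcop : Nat.Coprime (M ^ (s + 1)) (e ^ t) :=
        Nat.Coprime.pow_left _ (Nat.Coprime.pow_right _ hMe)
      obtain ⟨v, hv, R2, hR2⟩ := exists_digit (e ^ t) (M ^ (s + 1)) R1
        (Nat.pow_pos (by omega)) hcop
      -- the cost
      have hcost : v * (e ^ w * M ^ (s + 1)) ≤ e * e ^ (k * α) * M ^ (k + 1) := by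
        calc v * (e ^ w * M ^ (s + 1)) ≤ e ^ t * (e ^ w * M ^ (s + 1)) :=
              Nat.mul_le_mul_right _ hv.le
          _ = e ^ (s * α + c (k - s)) * M ^ (s + 1) := by
              rw [ht, pow_add]
              ring
          _ = e ^ (s * α) * e ^ c (k - s) * M ^ (s + 1) := by rw [pow_add]
          _ ≤ e ^ (s * α) * (e * (e ^ α * M) ^ (k - s)) * M ^ (s + 1) := by
              gcongr
              exact hcle _
          _ = e * e ^ (s * α + (k - s) * α) * M ^ ((k - s) + (s + 1)) := by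
              rw [mul_pow, ← pow_mul, mul_comm α (k - s), pow_add, pow_add]
              ring
          _ = _ := by
              rw [← Nat.add_mul, show s + (k - s) = k by omega, show k - s + (s + 1) = k + 1 by omega]
      have hRpos : (s : ℤ) * (e * e ^ (k * α) * M ^ (k + 1)) < e ^ w * (R2 * e ^ t) := by
        have h1 : ((e ^ w * R1 : ℕ) : ℤ) = e ^ w * (R2 * e ^ t) + v * (e ^ w * M ^ (s + 1)) := by
          push_cast at hR2 ⊢
          rw [hR2]
          ring
        have h2 : ((s + 1 : ℕ) : ℤ) * (e * e ^ (k * α) * M ^ (k + 1)) < ((e ^ w * R1 : ℕ) : ℤ) := by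
          exact_mod_cast hlt
        have h3 : (v : ℤ) * (e ^ w * M ^ (s + 1)) ≤ e * e ^ (k * α) * M ^ (k + 1) := by
          exact_mod_cast hcost
        push_cast at h1 h2
        linarith
      have hR2pos : 0 < R2 := by
        have h1 : (0 : ℤ) ≤ (s : ℤ) * (e * e ^ (k * α) * M ^ (k + 1)) := by positivity
        have h2 : (0 : ℤ) < e ^ w * (R2 * e ^ t) := lt_of_le_of_lt h1 hRpos
        have h3 : (0 : ℤ) < e ^ w := by positivity
        have h4 : (0 : ℤ) < e ^ t := by positivity
        have h5 := (mul_pos_iff_of_pos_left h3).1 h2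
        exact (mul_pos_iff_of_pos_right h4).1 h5
      obtain ⟨R3, hR3⟩ := Int.eq_ofNat_of_zero_le hR2pos.le
      subst hR3
      have hR3pos : 0 < R3 := by exact_mod_cast hR2pos
      have hsum : e ^ w * R1 = e ^ (s * α + c (k - s)) * R3 + v * (e ^ w * M ^ (s + 1)) := by
        have h1 : R1 = R3 * e ^ t + v * M ^ (s + 1) := by exact_mod_cast hR2
        rw [h1, ht, pow_add e w t]
        ring
      have hform : HasForm K (e ^ (s * α + c (k - s)) * R3) (Fin (m ^ k)) := by
        refine ih (by omega) _ (Nat.mul_pos (Nat.pow_pos (by omega)) hR3pos)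
          (Dvd.intro _ rfl) ?_
        have h1 : s * (e * e ^ (k * α) * M ^ (k + 1)) < e ^ w * (R3 * e ^ t) := by
          exact_mod_cast hRpos
        have h2 : e ^ (s * α + c (k - s)) * R3 = e ^ w * (R3 * e ^ t) := by
          rw [ht, pow_add e w t]
          ring
        rw [h2]
        exact h1
      rw [hsum]
      rcases Nat.eq_zero_or_pos v with h | h
      · rw [h, zero_mul, add_zero]
        exact hform
      · refine hform.add ?_
        have h1 := hterm j (by omega) v h
        rw [hkj] at h1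
        exact h1
  refine key k le_rfl _ ?_ ?_ ?_
  · exact Nat.mul_pos (Nat.pow_pos (by omega)) (by omega)
  · rw [Nat.sub_self, hc0, add_zero]
    exact Dvd.intro _ rfl
  · calc k * (e * e ^ (k * α) * M ^ (k + 1)) = e ^ (k * α) * (k * e * M ^ (k + 1)) := by ring
      _ < e ^ (k * α) * N := Nat.mul_lt_mul_of_pos_left hN (Nat.pow_pos (by omega))

end Pool.Agent.Helper47.Ci
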